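import Pool.Agent.helper13.BN.Defs

/-!
# MP_94a57f_an: calculus of the Laplacian `lap` (module BN-A0)
-/

set_option autoImplicit false
open MeasureTheory Filter Topology Set Metric
open scoped ContDiff Gradient RealInnerProductSpace ENNReal

noncomputable section
namespace Pool.Agent.helper13.BN
variable {N : ℕ}

theorem lap_congr {u v : E N → ℝ} {x : E N} (h : u =ᶠ[𝓝 x] v) : lap u x = lap v x := by
  unfold lap
  refine Finset.sum_congr rfl fun i _ => ?_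
  have h1 : (fun y => fderiv ℝ u y (EuclideanSpace.single i (1 : ℝ))) =ᶠ[𝓝 x]
      fun y => fderiv ℝ v y (EuclideanSpace.single i (1 : ℝ)) := by
    filter_upwards [h.fderiv (𝕜 := ℝ)] with y hy
    rw [hy]
  rw [h1.fderiv_eq]

theorem ev_diff {u : E N → ℝ} {x : E N} (hu : ContDiffAt ℝ 2 u x) :
    ∀ᶠ y in 𝓝 x, DifferentiableAt ℝ u y := by
  have h1 : ContDiffAt ℝ 1 u x := hu.of_le (by norm_num)
  filter_upwards [h1.eventually (by simp)] with y hy
  exact hy.differentiableAt (by norm_num)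

theorem diff_fderiv {u : E N → ℝ} {x : E N} (hu : ContDiffAt ℝ 2 u x) :
    DifferentiableAt ℝ (fderiv ℝ u) x :=
  (hu.fderiv_right (m := 1) (by norm_num)).differentiableAt (by norm_num)

theorem diff_fderiv_apply {u : E N → ℝ} {x : E N} (hu : ContDiffAt ℝ 2 u x) (v : E N) :
    DifferentiableAt ℝ (fun y => fderiv ℝ u y v) x :=
  (diff_fderiv hu).clm_apply (differentiableAt_const _)

/-- `lap` as the trace of the second derivative -/
theorem lap_eq_trace {u : E N → ℝ} {x : E N} (hu : ContDiffAt ℝ 2 u x) :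
    lap u x = ∑ i : Fin N, fderiv ℝ (fderiv ℝ u) x (EuclideanSpace.single i 1)
      (EuclideanSpace.single i 1) := by
  unfold lap
  refine Finset.sum_congr rfl fun i _ => ?_
  rw [fderiv_clm_apply (diff_fderiv hu) (differentiableAt_const _)]
  simp

theorem inner_gradient_eq {u : E N → ℝ} {x : E N} (v : E N) : ⟪∇ u x, v⟫ = fderiv ℝ u x v :=
  inner_gradient_left

theorem fderiv_single (w : E N → ℝ) (x : E N) (i : Fin N) :
    fderiv ℝ w x (EuclideanSpace.single i 1) = (∇ w x) i := by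
  rw [← inner_gradient_eq, real_inner_comm, EuclideanSpace.inner_single_left]
  simp

theorem sum_fderiv_mul (u v : E N → ℝ) (x : E N) :
    ∑ i : Fin N, fderiv ℝ u x (EuclideanSpace.single i 1) *
      fderiv ℝ v x (EuclideanSpace.single i 1) = ⟪∇ u x, ∇ v x⟫ := by
  rw [PiLp.inner_apply]
  refine Finset.sum_congr rfl fun i _ => ?_
  rw [fderiv_single, fderiv_single]
  simp [mul_comm]

theorem lap_add {u v : E N → ℝ} {x : E N} (hu : ContDiffAt ℝ 2 u x) (hv : ContDiffAt ℝ 2 v x) :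
    lap (fun y => u y + v y) x = lap u x + lap v x := by
  unfold lap
  rw [← Finset.sum_add_distrib]
  refine Finset.sum_congr rfl fun i _ => ?_
  have h1 : (fun y => fderiv ℝ (fun y => u y + v y) y (EuclideanSpace.single i (1 : ℝ))) =ᶠ[𝓝 x]
      fun y => fderiv ℝ u y (EuclideanSpace.single i (1 : ℝ))
        + fderiv ℝ v y (EuclideanSpace.single i (1 : ℝ)) := by
    filter_upwards [ev_diff hu, ev_diff hv] with y hy hy'
    rw [fderiv_fun_add hy hy']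
    rfl
  rw [h1.fderiv_eq, fderiv_fun_add (diff_fderiv_apply hu _) (diff_fderiv_apply hv _)]
  rfl

theorem lap_mul {u v : E N → ℝ} {x : E N} (hu : ContDiffAt ℝ 2 u x) (hv : ContDiffAt ℝ 2 v x) :
    lap (fun y => u y * v y) x = u x * lap v x + 2 * ⟪∇ u x, ∇ v x⟫ + v x * lap u x := by
  have hu0 : DifferentiableAt ℝ u x := hu.differentiableAt (by norm_num)
  have hv0 : DifferentiableAt ℝ v x := hv.differentiableAt (by norm_num)
  have key : ∀ i : Fin N, fderiv ℝ (fun y => fderiv ℝ (fun y => u y * v y) y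
      (EuclideanSpace.single i 1)) x (EuclideanSpace.single i 1)
      = u x * fderiv ℝ (fun y => fderiv ℝ v y (EuclideanSpace.single i 1)) x
          (EuclideanSpace.single i 1)
        + 2 * (fderiv ℝ u x (EuclideanSpace.single i 1) * fderiv ℝ v x
          (EuclideanSpace.single i 1))
        + v x * fderiv ℝ (fun y => fderiv ℝ u y (EuclideanSpace.single i 1)) x
          (EuclideanSpace.single i 1) := by
    intro i
    have h5 : (fun y => fderiv ℝ (fun y => u y * v y) y (EuclideanSpace.single i 1)) =ᶠ[𝓝 x]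
        fun y => u y * fderiv ℝ v y (EuclideanSpace.single i 1)
          + v y * fderiv ℝ u y (EuclideanSpace.single i 1) := by
      filter_upwards [ev_diff hu, ev_diff hv] with y hy hy'
      rw [fderiv_fun_mul hy hy']
      simp
    rw [h5.fderiv_eq]
    have h6 := diff_fderiv_apply hu (EuclideanSpace.single i (1 : ℝ))
    have h7 := diff_fderiv_apply hv (EuclideanSpace.single i (1 : ℝ))
    rw [fderiv_fun_add (hu0.fun_mul h7) (hv0.fun_mul h6), fderiv_fun_mul hu0 h7,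
      fderiv_fun_mul hv0 h6]
    simp only [add_apply, smul_apply, smul_eq_mul]
    ring
  unfold lap
  rw [Finset.sum_congr rfl fun i _ => key i, Finset.sum_add_distrib, Finset.sum_add_distrib,
    ← Finset.mul_sum, ← Finset.mul_sum, ← Finset.mul_sum, sum_fderiv_mul]

theorem lap_const (c : ℝ) (x : E N) : lap (fun _ => c) x = 0 := by
  unfold lap
  simp

theorem lap_const_mul {u : E N → ℝ} {x : E N} (c : ℝ) (hu : ContDiffAt ℝ 2 u x) :
    lap (fun y => c * u y) x = c * lap u x := by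
  rw [lap_mul contDiffAt_const hu, lap_const]
  simp

theorem continuousAt_lap {u : E N → ℝ} {x : E N} (hu : ContDiffAt ℝ 2 u x) :
    ContinuousAt (lap u) x := by
  have h1 : lap u =ᶠ[𝓝 x] fun y => ∑ i : Fin N, fderiv ℝ (fderiv ℝ u) y
      (EuclideanSpace.single i 1) (EuclideanSpace.single i 1) := by
    filter_upwards [hu.eventually (by simp)] with y hy
    exact lap_eq_trace hy
  have h2 : ContinuousAt (fderiv ℝ (fderiv ℝ u)) x :=
    ((hu.fderiv_right (m := 1) (by norm_num)).fderiv_right (m := 0) (by norm_num)).continuousAt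
  refine (ContinuousAt.congr ?_ h1.symm)
  refine tendsto_finsetSum _ fun i _ => ?_
  exact (h2.clm_apply continuousAt_const).clm_apply continuousAt_const

/-- composition with a function of one variable -/
theorem lap_comp {u : E N → ℝ} {x : E N} {g : ℝ → ℝ} (hg : ContDiffAt ℝ 2 g (u x))
    (hu : ContDiffAt ℝ 2 u x) :
    lap (fun y => g (u y)) x = deriv (deriv g) (u x) * ‖∇ u x‖ ^ 2 + deriv g (u x) * lap u x := by
  have hu0 : DifferentiableAt ℝ u x := hu.differentiableAt (by norm_num)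
  have hg1 : ∀ᶠ y in 𝓝 x, DifferentiableAt ℝ g (u y) := by
    have h1 : ContDiffAt ℝ 1 g (u x) := hg.of_le (by norm_num)
    filter_upwards [hu0.continuousAt.eventually (h1.eventually (by simp))] with y hy
    exact hy.differentiableAt (by norm_num)
  have hg2 : DifferentiableAt ℝ (deriv g) (u x) := by
    have h1 : ContDiffAt ℝ 1 (fderiv ℝ g) (u x) := hg.fderiv_right (by norm_num)
    have h2 : DifferentiableAt ℝ (fun y => fderiv ℝ g y 1) (u x) :=
      (h1.differentiableAt (by norm_num)).clm_apply (differentiableAt_const _)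
    exact h2
  have key : ∀ i : Fin N, fderiv ℝ (fun y => fderiv ℝ (fun y => g (u y)) y
      (EuclideanSpace.single i 1)) x (EuclideanSpace.single i 1)
      = deriv (deriv g) (u x) * (fderiv ℝ u x (EuclideanSpace.single i 1) * fderiv ℝ u x
          (EuclideanSpace.single i 1))
        + deriv g (u x) * fderiv ℝ (fun y => fderiv ℝ u y (EuclideanSpace.single i 1)) x
          (EuclideanSpace.single i 1) := by
    intro i
    have h5 : (fun y => fderiv ℝ (fun y => g (u y)) y (EuclideanSpace.single i 1)) =ᶠ[𝓝 x]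
        fun y => deriv g (u y) * fderiv ℝ u y (EuclideanSpace.single i 1) := by
      filter_upwards [ev_diff hu, hg1] with y hy hy'
      have h := (hy'.hasDerivAt.comp_hasFDerivAt y hy.hasFDerivAt).fderiv
      have h' : fderiv ℝ (fun y => g (u y)) y = deriv g (u y) • fderiv ℝ u y := h
      rw [h']
      simp
    rw [h5.fderiv_eq]
    have h6 := diff_fderiv_apply hu (EuclideanSpace.single i (1 : ℝ))
    have h7 : HasFDerivAt (fun y => deriv g (u y)) (deriv (deriv g) (u x) • fderiv ℝ u x) x :=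
      hg2.hasDerivAt.comp_hasFDerivAt x hu0.hasFDerivAt
    rw [fderiv_fun_mul h7.differentiableAt h6, h7.fderiv]
    simp only [add_apply, smul_apply, smul_eq_mul]
    ring
  unfold lap
  rw [Finset.sum_congr rfl fun i _ => key i, Finset.sum_add_distrib,
    ← Finset.mul_sum, ← Finset.mul_sum, sum_fderiv_mul, real_inner_self_eq_norm_sq]

/-! ### 2-jets -/

/-- `u` is `C²` at `x`, with gradient `G` and Laplacian `L`. -/
def J2 (u : E N → ℝ) (x : E N) (G : E N) (L : ℝ) : Prop :=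
  ContDiffAt ℝ 2 u x ∧ ∇ u x = G ∧ lap u x = L

theorem gradient_mul {u v : E N → ℝ} {x : E N} (hu : DifferentiableAt ℝ u x)
    (hv : DifferentiableAt ℝ v x) : ∇ (fun y => u y * v y) x = u x • ∇ v x + v x • ∇ u x := by
  refine ext_inner_right ℝ fun w => ?_
  rw [inner_gradient_eq, fderiv_fun_mul hu hv, inner_add_left, real_inner_smul_left,
    real_inner_smul_left, inner_gradient_eq, inner_gradient_eq]
  simp

theorem gradient_add' {u v : E N → ℝ} {x : E N} (hu : DifferentiableAt ℝ u x)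
    (hv : DifferentiableAt ℝ v x) : ∇ (fun y => u y + v y) x = ∇ u x + ∇ v x := by
  refine ext_inner_right ℝ fun w => ?_
  rw [inner_gradient_eq, fderiv_fun_add hu hv, inner_add_left, inner_gradient_eq,
    inner_gradient_eq]
  simp

theorem gradient_comp {u : E N → ℝ} {x : E N} {g : ℝ → ℝ} (hg : DifferentiableAt ℝ g (u x))
    (hu : DifferentiableAt ℝ u x) : ∇ (fun y => g (u y)) x = deriv g (u x) • ∇ u x := by
  refine ext_inner_right ℝ fun w => ?_
  have h := (hg.hasDerivAt.comp_hasFDerivAt x hu.hasFDerivAt).fderiv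
  have h' : fderiv ℝ (fun y => g (u y)) x = deriv g (u x) • fderiv ℝ u x := h
  rw [inner_gradient_eq, h', real_inner_smul_left, inner_gradient_eq]
  simp

namespace J2
variable {u v : E N → ℝ} {x G G' : E N} {L L' : ℝ}

theorem diff (h : J2 u x G L) : DifferentiableAt ℝ u x := h.1.differentiableAt (by norm_num)

theorem mul (h : J2 u x G L) (h' : J2 v x G' L') :
    J2 (fun y => u y * v y) x (u x • G' + v x • G) (u x * L' + 2 * ⟪G, G'⟫ + v x * L) := by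
  refine ⟨h.1.mul h'.1, ?_, ?_⟩
  · rw [gradient_mul h.diff h'.diff, h.2.1, h'.2.1]
  · rw [lap_mul h.1 h'.1, h.2.1, h'.2.1, h.2.2, h'.2.2]

theorem add (h : J2 u x G L) (h' : J2 v x G' L') :
    J2 (fun y => u y + v y) x (G + G') (L + L') := by
  refine ⟨h.1.add h'.1, ?_, ?_⟩
  · rw [gradient_add' h.diff h'.diff, h.2.1, h'.2.1]
  · rw [lap_add h.1 h'.1, h.2.2, h'.2.2]

theorem const (c : ℝ) (x : E N) : J2 (fun _ => c) x 0 0 :=
  ⟨contDiffAt_const, gradient_fun_const x c, lap_const c x⟩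

theorem const_mul (c : ℝ) (h : J2 u x G L) : J2 (fun y => c * u y) x (c • G) (c * L) := by
  have := (const c x).mul h
  simpa using this

theorem comp {g : ℝ → ℝ} (h : J2 u x G L) (hg : ContDiffAt ℝ 2 g (u x)) :
    J2 (fun y => g (u y)) x (deriv g (u x) • G)
      (deriv (deriv g) (u x) * ‖G‖ ^ 2 + deriv g (u x) * L) := by
  refine ⟨hg.comp x h.1, ?_, ?_⟩
  · rw [gradient_comp (hg.differentiableAt (by norm_num)) h.diff, h.2.1]
  · rw [lap_comp hg h.1, h.2.1, h.2.2]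

theorem congr (h : J2 u x G L) (h' : v =ᶠ[𝓝 x] u) (hG : G = G') (hL : L = L') :
    J2 v x G' L' :=
  ⟨h.1.congr_of_eventuallyEq h', by rw [h'.gradient_eq, h.2.1, hG], by
    rw [lap_congr h', h.2.2, hL]⟩

end J2

theorem grad_inner (e x : E N) : ∇ (fun y => ⟪y, e⟫) x = e := by
  refine ext_inner_right ℝ fun w => ?_
  rw [inner_gradient_eq]
  have h : fderiv ℝ (fun y : E N => ⟪y, e⟫) x = (innerSL ℝ e : E N →L[ℝ] ℝ) := by
    have h1 : (fun y : E N => ⟪y, e⟫) = fun y => innerSL ℝ e y := by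
      ext y; simp [real_inner_comm]
    rw [h1]
    exact (innerSL ℝ e).fderiv
  rw [h]
  simp

theorem lap_inner (e x : E N) : lap (fun y => ⟪y, e⟫) x = 0 := by
  unfold lap
  refine Finset.sum_eq_zero fun i _ => ?_
  have h : ∀ y, fderiv ℝ (fun y : E N => ⟪y, e⟫) y = (innerSL ℝ e : E N →L[ℝ] ℝ) := by
    intro y
    have h1 : (fun y : E N => ⟪y, e⟫) = fun y => innerSL ℝ e y := by
      ext y; simp [real_inner_comm]
    rw [h1]
    exact (innerSL ℝ e).fderiv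
  simp [h]

theorem J2_inner (e x : E N) : J2 (fun y => ⟪y, e⟫) x e 0 :=
  ⟨(contDiff_id.inner ℝ contDiff_const).contDiffAt, grad_inner e x, lap_inner e x⟩

theorem grad_norm_sq (ξ x : E N) : ∇ (fun y => ‖y - ξ‖ ^ 2) x = (2 : ℝ) • (x - ξ) := by
  refine ext_inner_right ℝ fun w => ?_
  rw [inner_gradient_eq]
  have h : HasFDerivAt (fun y : E N => ‖y - ξ‖ ^ 2) (2 • (innerSL ℝ (x - ξ))) x :=
    ((hasFDerivAt_id x).sub_const ξ).norm_sq
  rw [h.fderiv]
  simp [real_inner_smul_left, inner_sub_left]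

theorem lap_norm_sq (ξ x : E N) : lap (fun y => ‖y - ξ‖ ^ 2) x = 2 * N := by
  unfold lap
  have h : ∀ y, fderiv ℝ (fun y : E N => ‖y - ξ‖ ^ 2) y = 2 • (innerSL ℝ (y - ξ)) := by
    intro y
    exact (((hasFDerivAt_id y).sub_const ξ).norm_sq).fderiv
  have key : ∀ i : Fin N, fderiv ℝ (fun y => fderiv ℝ (fun y => ‖y - ξ‖ ^ 2) y
      (EuclideanSpace.single i 1)) x (EuclideanSpace.single i 1) = 2 := by
    intro i
    have h1 : (fun y => fderiv ℝ (fun y => ‖y - ξ‖ ^ 2) y (EuclideanSpace.single i (1 : ℝ)))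
        = fun y => 2 * ⟪y, EuclideanSpace.single i (1 : ℝ)⟫
          + (- 2 * ⟪ξ, EuclideanSpace.single i (1 : ℝ)⟫) := by
      ext y
      rw [h y]
      simp
      ring
    rw [h1]
    have h2 : DifferentiableAt ℝ (fun y : E N => 2 * ⟪y, EuclideanSpace.single i (1 : ℝ)⟫) x :=
      (J2.const_mul 2 (J2_inner _ x)).diff
    have h3 : fderiv ℝ (fun y : E N => 2 * ⟪y, EuclideanSpace.single i (1 : ℝ)⟫
          + (- 2 * ⟪ξ, EuclideanSpace.single i (1 : ℝ)⟫)) x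
        = fderiv ℝ (fun y : E N => 2 * ⟪y, EuclideanSpace.single i (1 : ℝ)⟫) x :=
      fderiv_add_const _
    rw [h3, ← inner_gradient_eq, (J2.const_mul 2 (J2_inner _ x)).2.1]
    simp [real_inner_smul_left]
  rw [Finset.sum_congr rfl fun i _ => key i]
  simp [mul_comm]

theorem J2_norm_sq (ξ x : E N) : J2 (fun y => ‖y - ξ‖ ^ 2) x ((2 : ℝ) • (x - ξ)) (2 * N) :=
  ⟨((contDiff_id.sub contDiff_const).norm_sq ℝ).contDiffAt, grad_norm_sq ξ x, lap_norm_sq ξ x⟩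

theorem J2_norm {x : E N} (hx : x ≠ 0) :
    J2 (fun y : E N => ‖y‖) x (‖x‖⁻¹ • x) ((N - 1) / ‖x‖) := by
  have hx0 : 0 < ‖x‖ := norm_pos_iff.2 hx
  have h1 := J2_norm_sq (0 : E N) x
  have hs : ContDiffAt ℝ 2 Real.sqrt ((fun y : E N => ‖y - 0‖ ^ 2) x) := by
    refine Real.contDiffAt_sqrt ?_
    simp [hx]
  have h2 := h1.comp hs
  have e1 : deriv Real.sqrt (‖x‖ ^ 2) = 1 / (2 * ‖x‖) := by
    rw [(Real.hasDerivAt_sqrt (by positivity)).deriv, Real.sqrt_sq hx0.le]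
  have e2 : deriv (deriv Real.sqrt) (‖x‖ ^ 2) = - 1 / (4 * ‖x‖ ^ 3) := by
    have h3 : deriv Real.sqrt =ᶠ[𝓝 (‖x‖ ^ 2)] fun t => 1 / 2 * (Real.sqrt t)⁻¹ := by
      filter_upwards [eventually_gt_nhds (show (0 : ℝ) < ‖x‖ ^ 2 by positivity)] with t ht
      rw [(Real.hasDerivAt_sqrt ht.ne').deriv]
      field_simp
    rw [h3.deriv_eq]
    have h4 : HasDerivAt (fun t => 1 / 2 * (Real.sqrt t)⁻¹)
        (1 / 2 * (-(1 / (2 * Real.sqrt (‖x‖ ^ 2))) / Real.sqrt (‖x‖ ^ 2) ^ 2)) (‖x‖ ^ 2) := by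
      refine HasDerivAt.const_mul _ ?_
      exact (Real.hasDerivAt_sqrt (by positivity)).inv (by rw [Real.sqrt_sq hx0.le]; exact hx0.ne')
    rw [h4.deriv, Real.sqrt_sq hx0.le]
    field_simp
    norm_num
  simp only [sub_zero] at h2
  rw [e1, e2] at h2
  refine h2.congr ?_ ?_ ?_
  · filter_upwards with y
    rw [Real.sqrt_sq (norm_nonneg _)]
  · rw [smul_smul]
    congr 1
    field_simp
  · rw [norm_smul]
    simp only [Real.norm_eq_abs, abs_two]
    field_simp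
    ring

/-- `|x|`, for `x ≠ 0` -/
theorem lap_norm {x : E N} (hx : x ≠ 0) : lap (fun y => ‖y‖) x = (N - 1) / ‖x‖ :=
  (J2_norm hx).2.2

theorem grad_norm {x : E N} (hx : x ≠ 0) : ∇ (fun y : E N => ‖y‖) x = ‖x‖⁻¹ • x :=
  (J2_norm hx).2.1

/-! ### powers of `μ² + |x-ξ|²` and the bubble -/

theorem J2_pow {μ : ℝ} (hμ : 0 < μ) (ξ x : E N) (a : ℝ) :
    J2 (fun y => (μ ^ 2 + ‖y - ξ‖ ^ 2) ^ a) x
      ((2 * a * (μ ^ 2 + ‖x - ξ‖ ^ 2) ^ (a - 1)) • (x - ξ))
      (2 * a * (2 * (a - 1) + N) * (μ ^ 2 + ‖x - ξ‖ ^ 2) ^ (a - 1)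
        - 4 * a * (a - 1) * μ ^ 2 * (μ ^ 2 + ‖x - ξ‖ ^ 2) ^ (a - 2)) := by
  have ht : 0 < μ ^ 2 + ‖x - ξ‖ ^ 2 := by positivity
  have h0 : J2 (fun y => μ ^ 2 + ‖y - ξ‖ ^ 2) x ((2 : ℝ) • (x - ξ)) (2 * N) := by
    simpa using (J2.const (μ ^ 2) x).add (J2_norm_sq ξ x)
  have hg : ContDiffAt ℝ 2 (fun t : ℝ => t ^ a) (μ ^ 2 + ‖x - ξ‖ ^ 2) :=
    Real.contDiffAt_rpow_const_of_ne ht.ne'
  have h1 := h0.comp hg
  have e1 : deriv (fun t : ℝ => t ^ a) (μ ^ 2 + ‖x - ξ‖ ^ 2)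
      = a * (μ ^ 2 + ‖x - ξ‖ ^ 2) ^ (a - 1) :=
    (Real.hasDerivAt_rpow_const (Or.inl ht.ne')).deriv
  have e2 : deriv (deriv (fun t : ℝ => t ^ a)) (μ ^ 2 + ‖x - ξ‖ ^ 2)
      = a * ((a - 1) * (μ ^ 2 + ‖x - ξ‖ ^ 2) ^ (a - 2)) := by
    have h3 : deriv (fun t : ℝ => t ^ a) =ᶠ[𝓝 (μ ^ 2 + ‖x - ξ‖ ^ 2)]
        fun t => a * t ^ (a - 1) := by
      filter_upwards [eventually_gt_nhds ht] with t ht
      exact (Real.hasDerivAt_rpow_const (Or.inl ht.ne')).deriv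
    rw [h3.deriv_eq]
    have h4 : HasDerivAt (fun t : ℝ => a * t ^ (a - 1))
        (a * ((a - 1) * (μ ^ 2 + ‖x - ξ‖ ^ 2) ^ (a - 1 - 1))) (μ ^ 2 + ‖x - ξ‖ ^ 2) :=
      (Real.hasDerivAt_rpow_const (Or.inl ht.ne')).const_mul a
    rw [h4.deriv]
    norm_num [sub_sub]
  rw [e1, e2] at h1
  refine h1.congr (Eventually.of_forall fun y => rfl) ?_ ?_
  · rw [smul_smul]
    congr 1
    ring
  · rw [norm_smul]
    simp only [Real.norm_eq_abs, abs_two]
    have e3 : (μ ^ 2 + ‖x - ξ‖ ^ 2) ^ (a - 1)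
        = (μ ^ 2 + ‖x - ξ‖ ^ 2) ^ (a - 2) * (μ ^ 2 + ‖x - ξ‖ ^ 2) := by
      rw [← Real.rpow_add_one ht.ne']
      congr 1
      ring
    rw [e3]
    ring

theorem alN_pos_aux (hN : 3 ≤ N) : 0 < alN N := by
  have h : (3 : ℝ) ≤ N := by exact_mod_cast hN
  unfold alN
  apply Real.rpow_pos_of_pos
  nlinarith

theorem bub_pos_aux (hN : 3 ≤ N) {μ : ℝ} (hμ : 0 < μ) (ξ x : E N) : 0 < bub N μ ξ x := by
  unfold bub
  have := alN_pos_aux hN
  positivity

/-- the potential `U^{p-1}` -/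
theorem bub_rpow_pm (hN : 3 ≤ N) {μ : ℝ} (hμ : 0 < μ) (ξ x : E N) :
    |bub N μ ξ x| ^ pm N = N * (N - 2) * μ ^ 2 / (μ ^ 2 + ‖x - ξ‖ ^ 2) ^ 2 := by
  have h : (3 : ℝ) ≤ N := by exact_mod_cast hN
  have ht : 0 < μ ^ 2 + ‖x - ξ‖ ^ 2 := by positivity
  have ha := alN_pos_aux hN
  have h2 : (N : ℝ) - 2 ≠ 0 := by linarith
  have hcp : cc N * pm N = 2 := by
    unfold cc pm
    field_simp
    norm_num
  have hnn : (0 : ℝ) ≤ N * (N - 2) := by nlinarith
  rw [abs_of_pos (bub_pos_aux hN hμ ξ x)]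
  unfold bub
  rw [Real.mul_rpow (by positivity) (by positivity), Real.mul_rpow (by positivity) (by positivity)]
  have e1 : alN N ^ pm N = N * (N - 2) := by
    unfold alN pm
    rw [← Real.rpow_mul hnn]
    have : ((N : ℝ) - 2) / 4 * (4 / (N - 2)) = 1 := by
      field_simp
    rw [this, Real.rpow_one]
  have e2 : (μ ^ cc N) ^ pm N = μ ^ 2 := by
    rw [← Real.rpow_mul hμ.le, hcp]
    norm_cast
  have e3 : ((μ ^ 2 + ‖x - ξ‖ ^ 2) ^ (-cc N)) ^ pm N = ((μ ^ 2 + ‖x - ξ‖ ^ 2) ^ 2)⁻¹ := by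
    rw [← Real.rpow_mul ht.le, neg_mul, hcp, Real.rpow_neg ht.le]
    norm_cast
  rw [e1, e2, e3]
  rfl

theorem rpow_sub_two_aux {t : ℝ} (ht : 0 < t) (a : ℝ) : t ^ (a - 2) = t ^ a / t ^ 2 := by
  rw [Real.rpow_sub ht]
  norm_cast

theorem J2_bub (hN : 3 ≤ N) {μ : ℝ} (hμ : 0 < μ) (ξ x : E N) :
    J2 (bub N μ ξ) x ((- 2 * cc N * (bub N μ ξ x / (μ ^ 2 + ‖x - ξ‖ ^ 2))) • (x - ξ))
      (- nl N (bub N μ ξ x)) := by
  have ht : 0 < μ ^ 2 + ‖x - ξ‖ ^ 2 := by positivity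
  refine ((J2_pow hμ ξ x (-cc N)).const_mul (alN N * μ ^ cc N)).congr
    (Eventually.of_forall fun y => rfl) ?_ ?_
  · rw [smul_smul]
    congr 1
    unfold bub
    rw [Real.rpow_sub_one ht.ne']
    ring
  · unfold nl
    rw [bub_rpow_pm hN hμ ξ x]
    unfold bub
    rw [rpow_sub_two_aux ht]
    have e : 2 * (-cc N - 1) + (N : ℝ) = 0 := by unfold cc; ring
    rw [e]
    unfold cc
    ring

/-- the bubble equation -/
theorem lap_bub (hN : 3 ≤ N) {μ : ℝ} (hμ : 0 < μ) (ξ x : E N) :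
    lap (bub N μ ξ) x = - nl N (bub N μ ξ x) := (J2_bub hN hμ ξ x).2.2

theorem grad_bub (hN : 3 ≤ N) {μ : ℝ} (hμ : 0 < μ) (ξ x : E N) :
    ∇ (bub N μ ξ) x = (- 2 * cc N * (bub N μ ξ x / (μ ^ 2 + ‖x - ξ‖ ^ 2))) • (x - ξ) :=
  (J2_bub hN hμ ξ x).2.1

/-- the linearised equation for `μ ∂_μ U`, `μ ∂_ξ U` -/
theorem lap_bubMu (hN : 3 ≤ N) {μ : ℝ} (hμ : 0 < μ) (ξ x : E N) :
    lap (bubMu N μ ξ) x = - (dnl N (bub N μ ξ x) * bubMu N μ ξ x) := by
  have ht : 0 < μ ^ 2 + ‖x - ξ‖ ^ 2 := by positivity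
  have h : (3 : ℝ) ≤ N := by exact_mod_cast hN
  have h2 : (N : ℝ) - 2 ≠ 0 := by linarith
  have h1 := ((J2_pow hμ ξ x (-cc N)).const_mul (cc N * (alN N * μ ^ cc N))).add
    ((J2_pow hμ ξ x (-cc N - 1)).const_mul (cc N * (alN N * μ ^ cc N) * (- 2 * μ ^ 2)))
  have h3 : bubMu N μ ξ = fun y => cc N * (alN N * μ ^ cc N) * (μ ^ 2 + ‖y - ξ‖ ^ 2) ^ (-cc N)
      + cc N * (alN N * μ ^ cc N) * (- 2 * μ ^ 2) * (μ ^ 2 + ‖y - ξ‖ ^ 2) ^ (-cc N - 1) := by
    ext y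
    have ht : 0 < μ ^ 2 + ‖y - ξ‖ ^ 2 := by positivity
    unfold bubMu bub
    rw [Real.rpow_sub_one ht.ne']
    field_simp
    ring
  rw [h3, h1.2.2, ← h3]
  unfold dnl bubMu
  rw [bub_rpow_pm hN hμ ξ x]
  unfold bub
  have e0 : ∀ a : ℝ, (μ ^ 2 + ‖x - ξ‖ ^ 2) ^ (a - 1) = (μ ^ 2 + ‖x - ξ‖ ^ 2) ^ a
    / (μ ^ 2 + ‖x - ξ‖ ^ 2) := fun a => Real.rpow_sub_one ht.ne' a
  simp only [e0, rpow_sub_two_aux ht]
  have e1 : ‖x - ξ‖ ^ 2 - μ ^ 2 = (μ ^ 2 + ‖x - ξ‖ ^ 2) - 2 * μ ^ 2 := by ring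
  rw [e1]
  have e2 : pm N + 1 = (N + 2) / (N - 2) := by
    unfold pm; field_simp; ring
  rw [e2]
  unfold cc
  generalize (μ ^ 2 + ‖x - ξ‖ ^ 2) ^ (-(((N : ℝ) - 2) / 2)) = T at *
  generalize (μ ^ 2 + ‖x - ξ‖ ^ 2) = t at *
  field_simp
  ring

theorem lap_bubXi (hN : 3 ≤ N) {e : E N} (he : ‖e‖ = 1) {μ : ℝ} (hμ : 0 < μ) (ξ x : E N) :
    lap (bubXi N e μ ξ) x = - (dnl N (bub N μ ξ x) * bubXi N e μ ξ x) := by
  have ht : 0 < μ ^ 2 + ‖x - ξ‖ ^ 2 := by positivity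
  have h : (3 : ℝ) ≤ N := by exact_mod_cast hN
  have h2 : (N : ℝ) - 2 ≠ 0 := by linarith
  have hl : J2 (fun y : E N => ⟪y - ξ, e⟫) x e 0 := by
    refine ((J2_inner e x).add (J2.const (-⟪ξ, e⟫) x)).congr
      (Eventually.of_forall fun y => ?_) (by simp) (by simp)
    simp only [inner_sub_left]
    ring
  have h1 := (hl.mul (J2_pow hμ ξ x (-cc N - 1))).const_mul (2 * cc N * μ * (alN N * μ ^ cc N))
  have h3 : bubXi N e μ ξ = fun y => 2 * cc N * μ * (alN N * μ ^ cc N) *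
      (⟪y - ξ, e⟫ * (μ ^ 2 + ‖y - ξ‖ ^ 2) ^ (-cc N - 1)) := by
    ext y
    have ht : 0 < μ ^ 2 + ‖y - ξ‖ ^ 2 := by positivity
    unfold bubXi bub
    rw [Real.rpow_sub_one ht.ne']
    field_simp
  rw [h3, h1.2.2, ← h3]
  unfold dnl bubXi
  rw [bub_rpow_pm hN hμ ξ x]
  unfold bub
  have e0 : ∀ a : ℝ, (μ ^ 2 + ‖x - ξ‖ ^ 2) ^ (a - 1) = (μ ^ 2 + ‖x - ξ‖ ^ 2) ^ a
    / (μ ^ 2 + ‖x - ξ‖ ^ 2) := fun a => Real.rpow_sub_one ht.ne' a
  simp only [e0, rpow_sub_two_aux ht, real_inner_smul_right, real_inner_comm (x - ξ) e]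
  have e2 : pm N + 1 = (N + 2) / (N - 2) := by
    unfold pm; field_simp; ring
  rw [e2]
  unfold cc
  generalize (μ ^ 2 + ‖x - ξ‖ ^ 2) ^ (-(((N : ℝ) - 2) / 2)) = T at *
  generalize (μ ^ 2 + ‖x - ξ‖ ^ 2) = t at *
  field_simp
  ring

/-! ### cylinder coordinates -/

/-- derivatives of `r ↦ r^{-c} y(-log r)` -/
theorem deriv_cylR {y : ℝ → ℝ} (hy : ContDiff ℝ 2 y) (c : ℝ) {r : ℝ} (hr : 0 < r) :
    ContDiffAt ℝ 2 (fun r : ℝ => r ^ (-c) * y (-Real.log r)) r ∧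
    deriv (fun r : ℝ => r ^ (-c) * y (-Real.log r)) r
      = - r ^ (-c - 1) * (c * y (-Real.log r) + deriv y (-Real.log r)) ∧
    deriv (deriv (fun r : ℝ => r ^ (-c) * y (-Real.log r))) r
      = r ^ (-c - 2) * ((c + 1) * (c * y (-Real.log r) + deriv y (-Real.log r))
        + (c * deriv y (-Real.log r) + deriv (deriv y) (-Real.log r))) := by
  have hy1 : Differentiable ℝ y := hy.differentiable (by norm_num)
  have hy2 : Differentiable ℝ (deriv y) := hy.differentiable_deriv_two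
  have hl : ∀ r : ℝ, 0 < r → HasDerivAt (fun r => -Real.log r) (-r⁻¹) r := fun r hr =>
    (Real.hasDerivAt_log hr.ne').neg
  have h1 : ∀ r : ℝ, 0 < r → HasDerivAt (fun r : ℝ => r ^ (-c) * y (-Real.log r))
      (- r ^ (-c - 1) * (c * y (-Real.log r) + deriv y (-Real.log r))) r := by
    intro r hr
    have h := (Real.hasDerivAt_rpow_const (p := -c) (Or.inl hr.ne')).mul
      ((hy1 (-Real.log r)).hasDerivAt.comp r (hl r hr))
    refine h.congr_deriv ?_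
    simp only [Function.comp]
    rw [Real.rpow_sub_one hr.ne']
    field_simp
    ring
  have h2 : deriv (fun r : ℝ => r ^ (-c) * y (-Real.log r)) =ᶠ[𝓝 r]
      fun r => - r ^ (-c - 1) * (c * y (-Real.log r) + deriv y (-Real.log r)) := by
    filter_upwards [eventually_gt_nhds hr] with t ht
    exact (h1 t ht).deriv
  refine ⟨?_, (h1 r hr).deriv, ?_⟩
  · refine (Real.contDiffAt_rpow_const_of_ne hr.ne').mul ?_
    exact hy.contDiffAt.comp r (Real.contDiffAt_log.2 hr.ne').neg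
  · rw [h2.deriv_eq]
    have h := (Real.hasDerivAt_rpow_const (p := -c - 1) (Or.inl hr.ne')).neg.mul
      ((((hy1 (-Real.log r)).hasDerivAt.comp r (hl r hr)).const_mul c).add
        ((hy2 (-Real.log r)).hasDerivAt.comp r (hl r hr)))
    have h' : HasDerivAt (fun r : ℝ => - r ^ (-c - 1) * (c * y (-Real.log r)
        + deriv y (-Real.log r))) _ r := h
    rw [h'.deriv]
    simp only [Function.comp]
    have e1 : r ^ (-c - 1 - 1) = r ^ (-c - 2) := by congr 1; ring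
    have e2 : r ^ (-c - 1) = r ^ (-c - 2) * r := by
      rw [← Real.rpow_add_one hr.ne']; congr 1; ring
    have e3 : ((fun y_1 => c * (y ∘ fun r => -Real.log r) y_1)
        + deriv y ∘ fun r => -Real.log r) r = c * y (-Real.log r) + deriv y (-Real.log r) := rfl
    have e4 : (-fun x : ℝ => x ^ (-c - 1)) r = - r ^ (-c - 1) := rfl
    simp only [Function.comp_def] at e3
    simp only [e1, e3, e4, e2, Function.comp_def]
    field_simp
    ring

/-- 2-jet of `x·e/|x|` -/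
theorem J2_ang {e : E N} {x : E N} (hx : x ≠ 0) :
    J2 (fun y : E N => ⟪y, e⟫ / ‖y‖) x
      (‖x‖⁻¹ • e - (⟪x, e⟫ * (‖x‖⁻¹) ^ 3) • x)
      (- (N - 1) * (⟪x, e⟫ / ‖x‖) * (‖x‖⁻¹) ^ 2) := by
  have hr : 0 < ‖x‖ := norm_pos_iff.2 hx
  have h1 : J2 (fun y : E N => ‖y‖⁻¹) x (- (‖x‖⁻¹) ^ 3 • x) ((3 - N) * (‖x‖⁻¹) ^ 3) := by
    have hg : ContDiffAt ℝ 2 (fun t : ℝ => t⁻¹) ‖x‖ := contDiffAt_inv ℝ hr.ne'
    have h := (J2_norm hx).comp hg
    have e1 : deriv (fun t : ℝ => t⁻¹) ‖x‖ = - (‖x‖ ^ 2)⁻¹ := by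
      simp
    have e2 : deriv (deriv (fun t : ℝ => t⁻¹)) ‖x‖ = 2 * (‖x‖⁻¹) ^ 3 := by
      have h3 : deriv (fun t : ℝ => t⁻¹) = fun t => - (t ^ 2)⁻¹ := by
        ext t; simp
      rw [h3]
      have h4 : HasDerivAt (fun t : ℝ => -(t ^ 2)⁻¹) (-(-(2 * ‖x‖) / (‖x‖ ^ 2) ^ 2)) ‖x‖ := by
        have := ((hasDerivAt_pow 2 ‖x‖).inv (by positivity)).neg
        refine this.congr_deriv ?_
        simp
      rw [h4.deriv]
      field_simp
    rw [e1, e2] at h
    refine h.congr (Eventually.of_forall fun y => rfl) ?_ ?_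
    · rw [smul_smul]
      congr 1
      field_simp
    · rw [norm_smul]
      simp only [norm_inv, norm_norm]
      field_simp
      ring
  have h2 := (J2_inner e x).mul h1
  refine h2.congr (Eventually.of_forall fun y => div_eq_mul_inv _ _) ?_ ?_
  · rw [smul_smul, sub_eq_add_neg, add_comm, ← neg_smul]
    congr 2
    ring
  · rw [real_inner_smul_right, real_inner_comm]
    field_simp
    ring

/-- THE FORMULA for `|x|^{-c} y(-log|x|) q(x·e/|x|)` (cylinder coordinates) -/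
theorem lap_cyl {e : E N} (he : ‖e‖ = 1) {x : E N} (hx : x ≠ 0) {y q : ℝ → ℝ}
    (hy : ContDiff ℝ 2 y) (hq : ContDiff ℝ 2 q) :
    lap (cyl N e y q) x = ‖x‖ ^ (-cc N - 2) *
      ((deriv (deriv y) (-Real.log ‖x‖) - cc N ^ 2 * y (-Real.log ‖x‖)) * q (⟪x, e⟫ / ‖x‖)
        + y (-Real.log ‖x‖) * ((1 - (⟪x, e⟫ / ‖x‖) ^ 2) * deriv (deriv q) (⟪x, e⟫ / ‖x‖)
          - (N - 1) * (⟪x, e⟫ / ‖x‖) * deriv q (⟪x, e⟫ / ‖x‖))) := by
  have hr : 0 < ‖x‖ := norm_pos_iff.2 hx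
  obtain ⟨hR0, hR1, hR2⟩ := deriv_cylR hy (cc N) hr
  have hR := (J2_norm hx).comp hR0
  rw [hR1, hR2] at hR
  have hQ := (J2_ang (e := e) hx).comp (g := q) hq.contDiffAt
  have h := hR.mul hQ
  have hc : cyl N e y q = fun x => ‖x‖ ^ (-cc N) * y (-Real.log ‖x‖) * q (⟪x, e⟫ / ‖x‖) := rfl
  rw [hc, h.2.2]
  have hxx : ⟪x, x⟫ = ‖x‖ ^ 2 := real_inner_self_eq_norm_sq x
  have hee : ⟪e, e⟫ = 1 := by rw [real_inner_self_eq_norm_sq, he]; norm_num
  have hex : ⟪e, x⟫ = ⟪x, e⟫ := real_inner_comm _ _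
  have e1 : ‖‖x‖⁻¹ • e - (⟪x, e⟫ * (‖x‖⁻¹) ^ 3) • x‖ ^ 2
      = (1 - (⟪x, e⟫ / ‖x‖) ^ 2) * (‖x‖⁻¹) ^ 2 := by
    rw [← real_inner_self_eq_norm_sq, inner_sub_left, inner_sub_right, inner_sub_right]
    simp only [real_inner_smul_left, real_inner_smul_right, hxx, hee, hex]
    field_simp
    ring
  have e2 : ‖‖x‖⁻¹ • x‖ ^ 2 = 1 := by
    rw [norm_smul]
    simp only [norm_inv, norm_norm]
    field_simp
  have e3 : ⟪x, ‖x‖⁻¹ • e - (⟪x, e⟫ * (‖x‖⁻¹) ^ 3) • x⟫ = 0 := by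
    rw [inner_sub_right]
    simp only [real_inner_smul_right, hxx]
    field_simp
    ring
  simp only [real_inner_smul_left, real_inner_smul_right, e1, e2, e3]
  have e4 : ‖x‖ ^ (-cc N) = ‖x‖ ^ (-cc N - 2) * ‖x‖ ^ 2 := by
    rw [rpow_sub_two_aux hr]
    field_simp
  have e5 : ‖x‖ ^ (-cc N - 1) = ‖x‖ ^ (-cc N - 2) * ‖x‖ := by
    rw [← Real.rpow_add_one hr.ne']; congr 1; ring
  rw [e4, e5]
  have hN : (N : ℝ) = 2 * cc N + 2 := by unfold cc; ring
  rw [hN]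
  generalize hT : ‖x‖ ^ (-cc N - 2) = T
  generalize cc N = c
  generalize ⟪x, e⟫ / ‖x‖ = s
  field_simp
  ring

end Pool.Agent.helper13.BN
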