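import Pool.Agent.helper40.BN.TanReg
import Pool.Agent.helper52.BN.Ode
import Pool.Agent.helper73.BN.Zonal
import Pool.Agent.helper38.BN.Eig

/-!
# MP_94a57f_an: regularity along spheres for the family (module BN-C8, `om_tan`)
-/

set_option autoImplicit false
open MeasureTheory Filter Topology Set Metric
open scoped ContDiff Gradient RealInnerProductSpace ENNReal

noncomputable section
namespace Pool.Agent.helper13.BN
variable {N : ℕ}

/-- consequence for the family: `v` is the representative of `om` -/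
theorem om_tan (hN : 3 ≤ N) (hN5 : N ≤ 5) (D : Cr N) {e : E N} (he : ‖e‖ = 1) (C : ℝ) :
    ∃ B k : ℝ, 0 < B ∧ 0 < k ∧ ∀ᶠ i in atTop, ∀ (b : ℝ) (om : LV N) (sig lam' : ℝ),
      |b| ≤ 2 → sig ≤ k → SolB D e i C b om sig lam' →
      ∃ (v g : E N → ℝ), IsRep (D.Om i) om v ∧ Weak (D.Om i) om g ∧ ContinuousOn g (D.Om i) ∧
        (∀ x ∈ D.Om i, |g x| ≤ B * sig * (1 - ‖x‖)) ∧
        (∀ x ∈ D.Om i, |v x| ≤ B * sig * (1 - ‖x‖)) ∧
        (∀ (R : E N ≃ₗᵢ[ℝ] E N) (k : ℝ), (∀ x, ‖R x - x‖ ≤ k * ‖x‖) → ∀ x ∈ D.Om i,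
          |v (R x) + v (R.symm x) - 2 * v x| ≤ B * sig * k ^ 2 * (1 - ‖x‖)) := by
  obtain ⟨C₁, hC₁, hev⟩ := eig_bdd hN D he
  obtain ⟨B, hB, hcore⟩ := TR.om_core hN hN5 |C| C₁ (|C| + (|D.lam| + 1)) (abs_nonneg _) hC₁.le
    (by positivity)
  refine ⟨B, 1, hB, one_pos, ?_⟩
  have hlam : ∀ᶠ i in atTop, |D.lam1 i| < |D.lam| + 1 :=
    (D.t1.abs).eventually_lt_const (by linarith)
  filter_upwards [hev, hlam] with i hi hli b om sig lam' hb hsig hS
  obtain ⟨hb12, hT1, hT2, -, -, -, -⟩ := hi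
  have hρ : 0 < D.rho i := Real.exp_pos _
  have hρ1 : D.rho i < 1 := by
    unfold Cr.rho
    rw [Real.exp_lt_one_iff]
    linarith [D.posL i]
  have hz1 : yf (((0 : ℕ) : ℝ) + cc N) (D.lam1 i) (D.Ls i) = 0 := by
    rw [Nat.cast_zero, zero_add]
    exact D.z1 i
  obtain ⟨hF1m, hF1f, hF1W⟩ := eig_spec hN he (D.posL i) hz1
  obtain ⟨hF2m, hF2f, hF2W⟩ := eig_spec hN he (D.posL i) (D.z2 i)
  rw [Nat.cast_zero, zero_add] at hF1f hF1W
  have hc1 : ContinuousOn (D.f1 e i) (ann N (D.rho i)) :=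
    TR.cyl_cont hρ (yf_contDiff _ _).continuous (Pz_contDiff _ _).continuous
  have hc2 : ContinuousOn (D.f2 e i) (ann N (D.rho i)) :=
    TR.cyl_cont hρ (yf_contDiff _ _).continuous (Pz_contDiff _ _).continuous
  have hCA : C * sig ≤ |C| * sig := mul_le_mul_of_nonneg_right (le_abs_self C) hS.sig_pos.le
  have hlam' : |lam'| ≤ |C| + (|D.lam| + 1) := by
    have h1 : lam' = (lam' - D.lam1 i) + D.lam1 i := by ring
    rw [h1]
    refine (abs_add_le _ _).trans (add_le_add ?_ hli.le)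
    refine hS.near1.trans (hCA.trans ?_)
    have := mul_le_mul_of_nonneg_left hsig (abs_nonneg C)
    linarith
  exact hcore (D.rho i) (D.F1 e i) (D.F2 e i) om (D.f1 e i) (D.f2 e i) (D.lam1 i) (D.lam2 i) lam' b
    sig hρ hρ1 hF1W.1 hF2W.1 hF1f hF2f hF1W hF2W hc1 hc2 hb12 hT1 hT2 hlam' hb hS.sig_pos hsig
    (hS.om_le.trans hCA) (hS.near1.trans hCA) (hS.near2.trans hCA)
    (by filter_upwards [hS.bdd] with x hx using hx.trans (le_abs_self C)) hS.eqn

end Pool.Agent.helper13.BN
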