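import Pool.Agent.helper40.BN.Lap
import Pool.Agent.helper58.BN.Solve
import Pool.Agent.helper42.BN.Scale
import Pool.Agent.helper22.BN.AxSp
import Pool.Agent.helper11.BN.Gap1

/-!
# MP_94a57f_an: the spectral gap of the bubble (module BN-G2)
-/

set_option autoImplicit false
open MeasureTheory Filter Topology Set Metric
open scoped ContDiff Gradient RealInnerProductSpace ENNReal

noncomputable section
namespace Pool.Agent.helper13.BN

/-! ### the abstract lemma -/

section abstract_gap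
variable {X : Type*} [NormedAddCommGroup X] [InnerProductSpace ℝ X]

theorem gap_abs_fin (S : X →L[ℝ] X) (hS : ∀ x y, ⟪S x, y⟫ = ⟪x, S y⟫)
    (W : ℕ → Submodule ℝ X) [∀ k, FiniteDimensional ℝ (W k)] (hW : Monotone W) (κ : ℕ → ℝ)
    (hκ0 : 0 < κ 2) (hκ : ∀ k, 2 ≤ k → κ 2 ≤ κ k)
    (hSW : ∀ k, ∀ u ∈ W (k + 1), S u - (κ k)⁻¹ • u ∈ W k) (k : ℕ) :
    ∀ u ∈ W k, (∀ z ∈ W 2, ⟪z, u⟫ = 0) → ⟪S u, u⟫ ≤ (κ 2)⁻¹ * ‖u‖ ^ 2 := by
  have triv : ∀ j ≤ 2, ∀ u ∈ W j, (∀ z ∈ W 2, ⟪z, u⟫ = 0) →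
      ⟪S u, u⟫ ≤ (κ 2)⁻¹ * ‖u‖ ^ 2 := by
    intro j hj u hu h
    have h0 : u = 0 := by
      have := h u (hW hj hu)
      exact inner_self_eq_zero.1 this
    simp [h0]
  induction k with
  | zero => exact triv 0 (by norm_num)
  | succ k ih =>
    rcases Nat.lt_or_ge k 2 with hk | hk
    · exact triv (k + 1) (by omega)
    intro u hu h
    obtain ⟨j, rfl⟩ : ∃ j, k = j + 1 := ⟨k - 1, by omega⟩
    set p : X := (W (j + 1)).starProjection u with hp
    have hpW : p ∈ W (j + 1) := Submodule.starProjection_apply_mem _ _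
    set q : X := u - p with hq
    have hqo : ∀ z ∈ W (j + 1), ⟪z, q⟫ = 0 := by
      intro z hz
      exact (Submodule.mem_orthogonal _ _).1 (Submodule.sub_starProjection_mem_orthogonal u) z hz
    have hqW : q ∈ W (j + 1 + 1) := Submodule.sub_mem _ hu (hW (Nat.le_succ _) hpW)
    have hSinv : ∀ z ∈ W (j + 1), S z ∈ W (j + 1) := by
      intro z hz
      have := hSW j z hz
      have h2 : S z = (S z - (κ j)⁻¹ • z) + (κ j)⁻¹ • z := by abel
      rw [h2]
      exact Submodule.add_mem _ (hW (Nat.le_succ _) this) (Submodule.smul_mem _ _ hz)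
    have hSq : S q = (κ (j + 1))⁻¹ • q := by
      have h1 := hSW (j + 1) q hqW
      have h2 : ⟪S q - (κ (j + 1))⁻¹ • q, S q - (κ (j + 1))⁻¹ • q⟫ = 0 := by
        rw [inner_sub_right, real_inner_smul_right, hqo _ h1, real_inner_comm, hS,
          real_inner_comm, hqo _ (hSinv _ h1)]
        simp
      exact sub_eq_zero.1 (inner_self_eq_zero.1 h2)
    have hup : u = p + q := by rw [hq]; abel
    have hpo : ∀ z ∈ W 2, ⟪z, p⟫ = 0 := by
      intro z hz
      have h1 : p = u - q := by rw [hq]; abel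
      rw [h1, inner_sub_right, h z hz, hqo z (hW hk hz), sub_zero]
    have h1 := ih p hpW hpo
    have hpq : ⟪p, q⟫ = 0 := hqo p hpW
    have hqp : ⟪q, p⟫ = 0 := by rw [real_inner_comm]; exact hpq
    have h2 : ⟪S u, u⟫ = ⟪S p, p⟫ + (κ (j + 1))⁻¹ * ‖q‖ ^ 2 := by
      rw [hup, map_add, inner_add_left, inner_add_right, inner_add_right, hSq,
        real_inner_smul_left, real_inner_smul_left, hqp, real_inner_self_eq_norm_sq, hS p q, hSq,
        real_inner_smul_right, hpq]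
      ring
    have h3 : ‖u‖ ^ 2 = ‖p‖ ^ 2 + ‖q‖ ^ 2 := by
      rw [hup, ← real_inner_self_eq_norm_sq, inner_add_left, inner_add_right, inner_add_right,
        hpq, hqp, real_inner_self_eq_norm_sq, real_inner_self_eq_norm_sq]
      ring
    rw [h2, h3]
    have h4 : (κ (j + 1))⁻¹ ≤ (κ 2)⁻¹ := inv_anti₀ hκ0 (hκ _ hk)
    have h5 : (κ (j + 1))⁻¹ * ‖q‖ ^ 2 ≤ (κ 2)⁻¹ * ‖q‖ ^ 2 :=
      mul_le_mul_of_nonneg_right h4 (by positivity)
    linarith

theorem gap_abs [CompleteSpace X] (S : X →L[ℝ] X) (hS : ∀ x y, ⟪S x, y⟫ = ⟪x, S y⟫)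
    (W : ℕ → Submodule ℝ X) [∀ k, FiniteDimensional ℝ (W k)] (hW : Monotone W) (κ : ℕ → ℝ)
    (hκ0 : 0 < κ 2) (hκ : ∀ k, 2 ≤ k → κ 2 ≤ κ k)
    (hSW : ∀ k, ∀ u ∈ W (k + 1), S u - (κ k)⁻¹ • u ∈ W k)
    (w : X) (hw : w ∈ (⨆ k, W k).topologicalClosure) (h2 : ∀ z ∈ W 2, ⟪z, w⟫ = 0) :
    ⟪S w, w⟫ ≤ (κ 2)⁻¹ * ‖w‖ ^ 2 := by
  have : (⨆ k, W k).topologicalClosure.HasOrthogonalProjection := by
    have : CompleteSpace (⨆ k, W k).topologicalClosure :=
      (⨆ k, W k).isClosed_topologicalClosure.completeSpace_coe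
    infer_instance
  have h1 := Submodule.starProjection_tendsto_closure_iSup W hW w
  rw [Submodule.starProjection_eq_self_iff.2 hw] at h1
  have h3 : Tendsto (fun k => ⟪S ((W k).starProjection w), (W k).starProjection w⟫) atTop
      (𝓝 ⟪S w, w⟫) :=
    ((S.continuous.tendsto w).comp h1).inner h1
  have h4 : Tendsto (fun k => (κ 2)⁻¹ * ‖(W k).starProjection w‖ ^ 2) atTop
      (𝓝 ((κ 2)⁻¹ * ‖w‖ ^ 2)) := (h1.norm.pow 2).const_mul _
  refine le_of_tendsto_of_tendsto h3 h4 ?_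
  filter_upwards [eventually_ge_atTop 2] with k hk
  refine gap_abs_fin S hS W hW κ hκ0 hκ hSW k _ (Submodule.starProjection_apply_mem _ _) ?_
  intro z hz
  have h5 : ⟪z, w - (W k).starProjection w⟫ = 0 :=
    (Submodule.mem_orthogonal _ _).1 (Submodule.sub_starProjection_mem_orthogonal w) z (hW hk hz)
  rw [inner_sub_right, h2 z hz] at h5
  linarith

end abstract_gap

/-! ### the weight -/

variable {N : ℕ}

/-- the weight `4/(1+|x|²)²` -/
def om (x : E N) : ℝ := 4 / (1 + ‖x‖ ^ 2) ^ 2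

theorem om_pos (x : E N) : 0 < om x := by unfold om; positivity

theorem om_continuous : Continuous (om : E N → ℝ) := by
  unfold om
  exact continuous_const.div (by fun_prop) fun x => by positivity

theorem om_Mq (hN : 3 ≤ N) : Mq (N / 2) univ (om : E N → ℝ) := by
  have hN' : (3 : ℝ) ≤ N := by exact_mod_cast hN
  have hp0 : ENNReal.ofReal ((N : ℝ) / 2) ≠ 0 := by
    rw [Ne, ENNReal.ofReal_eq_zero]; linarith
  unfold Mq
  rw [Measure.restrict_univ]
  refine (integrable_norm_rpow_iff om_continuous.aestronglyMeasurable hp0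
    ENNReal.ofReal_ne_top).1 ?_
  rw [ENNReal.toReal_ofReal (by positivity)]
  have h1 : Integrable (fun x : E N => ((1 : ℝ) + ‖x‖ ^ 2) ^ (-(2 * (N : ℝ)) / 2)) volume := by
    refine integrable_rpow_neg_one_add_norm_sq ?_
    rw [finrank_euclideanSpace, Fintype.card_fin]
    linarith
  refine (h1.const_mul ((4 : ℝ) ^ ((N : ℝ) / 2))).congr (Eventually.of_forall fun x => ?_)
  have hx : (0 : ℝ) < 1 + ‖x‖ ^ 2 := by positivity
  simp only
  rw [Real.norm_of_nonneg (om_pos x).le]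
  unfold om
  rw [Real.div_rpow (by norm_num) (by positivity), ← Real.rpow_natCast (1 + ‖x‖ ^ 2) 2,
    ← Real.rpow_mul hx.le, div_eq_mul_inv (4 ^ ((N : ℝ) / 2)), ← Real.rpow_neg hx.le]
  congr 2
  push_cast
  ring

/-! ### the operator `S` -/

/-- `D^{1,2}` as a Hilbert space -/
abbrev DU (N : ℕ) : Type := ↥(DD (univ : Set (E N)))

instance : CompleteSpace (DU N) :=
  (Submodule.isClosed_topologicalClosure _).completeSpace_coe

theorem Mq_fn (hN : 3 ≤ N) (u : DU N) : Mq (ts N) univ (fn (u : LV N)) := (sobolev hN u.2).1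

theorem Mq_om_fn (hN : 3 ≤ N) (u : DU N) : Mq (td N) univ (fun x => om x * fn (u : LV N) x) :=
  (holder_pot hN (om_Mq hN) (Mq_fn hN u)).1

/-- the solution operator of `-Δ(S u) = ω u` -/
def S0 (u : DU N) : DU N := ⟨T univ (fun x => om x * fn (u : LV N) x), T_mem _ _⟩

theorem S0_weak (hN : 3 ≤ N) (u : DU N) :
    Weak univ (S0 u : LV N) (fun x => om x * fn (u : LV N) x) :=
  T_weak hN MeasurableSet.univ (Mq_om_fn hN u)

theorem S0_inner (hN : 3 ≤ N) (u v : DU N) :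
    ⟪S0 u, v⟫ = ∫ x, om x * fn (u : LV N) x * fn (v : LV N) x := by
  have h := (weak_pair hN MeasurableSet.univ (Mq_om_fn hN u) (S0_weak hN u) v.2).2
  rw [Measure.restrict_univ] at h
  rw [Submodule.coe_inner]
  exact h

theorem S0_int (hN : 3 ≤ N) (u v : DU N) :
    Integrable (fun x => om x * fn (u : LV N) x * fn (v : LV N) x) volume := by
  have h := (weak_pair hN MeasurableSet.univ (Mq_om_fn hN u) (S0_weak hN u) v.2).1
  rwa [Measure.restrict_univ] at h

theorem S0_symm (hN : 3 ≤ N) (u v : DU N) : ⟪S0 u, v⟫ = ⟪u, S0 v⟫ := by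
  have h1 : ⟪u, S0 v⟫ = ⟪S0 v, u⟫ := real_inner_comm _ _
  rw [h1, S0_inner hN, S0_inner hN]
  refine integral_congr_ae (Eventually.of_forall fun x => ?_)
  simp only
  ring

theorem S0_add (hN : 3 ≤ N) (u v : DU N) : S0 (u + v) = S0 u + S0 v := by
  refine ext_inner_right ℝ fun w => ?_
  rw [inner_add_left, S0_inner hN, S0_inner hN, S0_inner hN,
    ← integral_add (S0_int hN u w) (S0_int hN v w)]
  refine integral_congr_ae ?_
  filter_upwards [fn_add hN u.2 v.2] with x hx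
  have : fn ((u + v : DU N) : LV N) x = fn (u : LV N) x + fn (v : LV N) x := hx
  rw [this]
  ring

theorem S0_smul (hN : 3 ≤ N) (c : ℝ) (u : DU N) : S0 (c • u) = c • S0 u := by
  refine ext_inner_right ℝ fun w => ?_
  have h1 : ⟪c • S0 u, w⟫ = c * ⟪S0 u, w⟫ := by
    rw [Submodule.coe_inner, Submodule.coe_inner]
    exact real_inner_smul_left _ _ _
  rw [h1, S0_inner hN, S0_inner hN, ← integral_const_mul]
  refine integral_congr_ae ?_
  filter_upwards [fn_smul hN c u.2] with x hx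
  have : fn ((c • u : DU N) : LV N) x = c * fn (u : LV N) x := hx
  rw [this]
  ring

theorem S0_norm (hN : 3 ≤ N) (u : DU N) :
    ‖S0 u‖ ≤ SS N * (nq (N / 2) univ (om : E N → ℝ) * SS N) * ‖u‖ := by
  have h1 : ‖S0 u‖ ≤ SS N * nq (td N) univ (fun x => om x * fn (u : LV N) x) :=
    T_norm hN MeasurableSet.univ (Mq_om_fn hN u)
  have h2 := (holder_pot hN (om_Mq hN) (Mq_fn hN u)).2
  have h3 : nq (ts N) univ (fn (u : LV N)) ≤ SS N * ‖u‖ := (sobolev hN u.2).2
  have h4 : 0 ≤ nq (N / 2) univ (om : E N → ℝ) := ENNReal.toReal_nonneg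
  have h5 : 0 < SS N := SS_pos
  calc ‖S0 u‖ ≤ SS N * nq (td N) univ (fun x => om x * fn (u : LV N) x) := h1
    _ ≤ SS N * (nq (N / 2) univ (om : E N → ℝ) * nq (ts N) univ (fn (u : LV N))) := by gcongr
    _ ≤ SS N * (nq (N / 2) univ (om : E N → ℝ) * (SS N * ‖u‖)) := by gcongr
    _ = _ := by ring

/-- `S` as a continuous linear map -/
def SL (hN : 3 ≤ N) : DU N →L[ℝ] DU N :=
  LinearMap.mkContinuous
    { toFun := S0
      map_add' := S0_add hN
      map_smul' := S0_smul hN }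
    (SS N * (nq (N / 2) univ (om : E N → ℝ) * SS N)) (S0_norm hN)

theorem SL_apply (hN : 3 ≤ N) (u : DU N) : SL hN u = S0 u := rfl

/-! ### the finite dimensional spaces -/

open Classical in
/-- the basis elements, as elements of `D^{1,2}` -/
def gE (hN : 3 ≤ N) {e : E N} (he : ‖e‖ = 1) (j m : ℕ) : DU N :=
  if hm : m ≤ j then ⟨(exists_gbD hN he hm).choose, (exists_gbD hN he hm).choose_spec.1.1⟩ else 0

/-- the eigenvalues -/
def kap (N j : ℕ) : ℝ := (cc N + j) * (cc N + j + 1)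

theorem kap_pos (hN : 3 ≤ N) (j : ℕ) : 0 < kap N j := by
  have hN' : (3 : ℝ) ≤ N := by exact_mod_cast hN
  have hj : (0 : ℝ) ≤ j := by positivity
  unfold kap cc
  have : 0 < ((N : ℝ) - 2) / 2 + j := by linarith
  positivity

theorem kap_mono (hN : 3 ≤ N) {i j : ℕ} (h : i ≤ j) : kap N i ≤ kap N j := by
  have hN' : (3 : ℝ) ≤ N := by exact_mod_cast hN
  have hj : (i : ℝ) ≤ j := by exact_mod_cast h
  have hi : (0 : ℝ) ≤ i := by positivity
  unfold kap cc
  have : 0 < ((N : ℝ) - 2) / 2 + i := by linarith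
  nlinarith

variable {e : E N}

theorem gE_fn (hN : 3 ≤ N) (he : ‖e‖ = 1) {j m : ℕ} (hm : m ≤ j) :
    fn (gE hN he j m : LV N) =ᵐ[volume] gb N e j m := by
  unfold gE
  rw [dif_pos hm]
  exact (exists_gbD hN he hm).choose_spec.2

theorem gE_weak (hN : 3 ≤ N) (he : ‖e‖ = 1) {j m : ℕ} (hm : m ≤ j) :
    Weak univ (gE hN he j m : LV N) (fun x => 4 / (1 + ‖x‖ ^ 2) ^ 2 *
        ((cc N + j) * (cc N + j + 1) * gb N e j m x
          - (cc N + j) * (j - m) * gb N e (j - 1) m x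
          - m * (m - 1) / 4 * gb N e (j - 2) (m - 2) x)) := by
  unfold gE
  rw [dif_pos hm]
  exact (exists_gbD hN he hm).choose_spec.1

theorem weak_congr {Ω : Set (E N)} {w : LV N} {g g' : E N → ℝ} (h : Weak Ω w g)
    (hg : g =ᵐ[volume] g') : Weak Ω w g' := by
  refine ⟨h.1, fun φ W hφ hW => ?_⟩
  rw [h.2 φ W hφ hW]
  refine integral_congr_ae ?_
  filter_upwards [hg] with x hx
  rw [hx]

theorem weak_smul {Ω : Set (E N)} {w : LV N} {g : E N → ℝ} (h : Weak Ω w g) (c : ℝ) :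
    Weak Ω (c • w) (fun x => c * g x) := by
  refine ⟨Submodule.smul_mem _ _ h.1, fun φ W hφ hW => ?_⟩
  rw [real_inner_smul_left, h.2 φ W hφ hW, ← integral_const_mul]
  refine integral_congr_ae (Eventually.of_forall fun x => ?_)
  simp only
  ring

/-- the triangular relation -/
theorem gE_rel (hN : 3 ≤ N) (he : ‖e‖ = 1) {j m : ℕ} (hm : m ≤ j) :
    gE hN he j m = kap N j • S0 (gE hN he j m)
      - ((cc N + j) * (j - m)) • S0 (gE hN he (j - 1) m)
      - ((m : ℝ) * (m - 1) / 4) • S0 (gE hN he (j - 2) (m - 2)) := by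
  set A : ℝ := (cc N + j) * (j - m) with hA
  set B : ℝ := (m : ℝ) * (m - 1) / 4 with hB
  have h1 : Weak univ (gE hN he j m : LV N) (fun x =>
      (kap N j * (om x * fn (gE hN he j m : LV N) x) - A * (om x * fn (gE hN he (j - 1) m : LV N) x))
        - B * (om x * fn (gE hN he (j - 2) (m - 2) : LV N) x)) := by
    refine weak_congr (gE_weak hN he hm) ?_
    have e1 : (fun x => A * fn (gE hN he (j - 1) m : LV N) x) =ᵐ[volume]
        fun x => A * gb N e (j - 1) m x := by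
      rcases eq_or_lt_of_le hm with rfl | hlt
      · have : A = 0 := by rw [hA]; simp
        simp [this]
      · filter_upwards [gE_fn hN he (show m ≤ j - 1 by omega)] with x hx
        rw [hx]
    have e2 : (fun x => B * fn (gE hN he (j - 2) (m - 2) : LV N) x) =ᵐ[volume]
        fun x => B * gb N e (j - 2) (m - 2) x := by
      rcases Nat.lt_or_ge m 2 with hlt | hge
      · have : B = 0 := by
          rw [hB]
          interval_cases m <;> simp
        simp [this]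
      · filter_upwards [gE_fn hN he (show m - 2 ≤ j - 2 by omega)] with x hx
        rw [hx]
    filter_upwards [gE_fn hN he hm, e1, e2] with x hx hx1 hx2
    have hx1' : A * (om x * fn (gE hN he (j - 1) m : LV N) x) = om x * (A * gb N e (j - 1) m x) := by
      rw [← hx1]; ring
    have hx2' : B * (om x * fn (gE hN he (j - 2) (m - 2) : LV N) x)
        = om x * (B * gb N e (j - 2) (m - 2) x) := by
      rw [← hx2]; ring
    rw [hx1', hx2', hx]
    unfold om kap
    ring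
  have M0 := Mq_om_fn hN (gE hN he j m)
  have M1 := Mq_om_fn hN (gE hN he (j - 1) m)
  have M2 := Mq_om_fn hN (gE hN he (j - 2) (m - 2))
  have M0' := M0.const_mul (kap N j)
  have M1' := M1.const_mul A
  have M2' := M2.const_mul B
  have M01 : Mq (td N) univ (fun x => kap N j * (om x * fn (gE hN he j m : LV N) x)
      - A * (om x * fn (gE hN he (j - 1) m : LV N) x)) := M0'.sub M1'
  have h2 := (weak_iff_T hN MeasurableSet.univ (M01.sub M2')).1 h1
  have h3 := T_sub hN MeasurableSet.univ M01 M2'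
  have h4 := T_sub hN MeasurableSet.univ M0' M1'
  refine Subtype.ext ?_
  rw [h2]
  refine h3.trans ?_
  rw [h4, T_smul hN MeasurableSet.univ _ M0, T_smul hN MeasurableSet.univ _ M1,
    T_smul hN MeasurableSet.univ _ M2]
  rfl

/-- the spaces -/
def WWg (hN : 3 ≤ N) (he : ‖e‖ = 1) (k : ℕ) : Submodule ℝ (DU N) :=
  Submodule.span ℝ ((fun p : ℕ × ℕ => gE hN he p.1 p.2) '' {p | p.2 ≤ p.1 ∧ p.1 < k})

theorem WWg_mono (hN : 3 ≤ N) (he : ‖e‖ = 1) : Monotone (WWg hN he) := by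
  intro k l h
  refine Submodule.span_mono (image_mono ?_)
  rintro p ⟨h1, h2⟩
  exact ⟨h1, h2.trans_le h⟩

instance (hN : 3 ≤ N) (he : ‖e‖ = 1) (k : ℕ) : FiniteDimensional ℝ (WWg hN he k) := by
  refine FiniteDimensional.span_of_finite ℝ (Set.Finite.image _ ?_)
  refine (Set.Finite.prod (Set.finite_Iio k) (Set.finite_Iio k)).subset ?_
  rintro ⟨a, b⟩ ⟨h1, h2⟩
  exact ⟨h2, lt_of_le_of_lt h1 h2⟩

theorem gE_mem (hN : 3 ≤ N) (he : ‖e‖ = 1) {j m k : ℕ} (hm : m ≤ j) (hj : j < k) :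
    gE hN he j m ∈ WWg hN he k :=
  Submodule.subset_span ⟨(j, m), ⟨hm, hj⟩, rfl⟩

theorem gE_tri (hN : 3 ≤ N) (he : ‖e‖ = 1) (j : ℕ) : ∀ m ≤ j,
    S0 (gE hN he j m) - (kap N j)⁻¹ • gE hN he j m ∈ WWg hN he j := by
  induction j using Nat.strong_induction_on with
  | _ j ih =>
  intro m hm
  have hk := kap_pos hN j
  have h1 := gE_rel hN he hm
  have h2 : S0 (gE hN he j m) - (kap N j)⁻¹ • gE hN he j m
      = (kap N j)⁻¹ • (((cc N + j) * (j - m)) • S0 (gE hN he (j - 1) m)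
      + ((m : ℝ) * (m - 1) / 4) • S0 (gE hN he (j - 2) (m - 2))) := by
    have h3 : kap N j • S0 (gE hN he j m) = gE hN he j m
        + (((cc N + j) * (j - m)) • S0 (gE hN he (j - 1) m)
      + ((m : ℝ) * (m - 1) / 4) • S0 (gE hN he (j - 2) (m - 2))) := by
      nth_rewrite 2 [h1]
      abel
    have h4 : S0 (gE hN he j m) = (kap N j)⁻¹ • (kap N j • S0 (gE hN he j m)) := by
      rw [smul_smul, inv_mul_cancel₀ hk.ne', one_smul]
    rw [h4, h3, smul_add]
    abel
  rw [h2]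
  have key : ∀ i n, n ≤ i → i < j → S0 (gE hN he i n) ∈ WWg hN he j := by
    intro i n hn hi
    have h5 := ih i hi n hn
    have h6 : S0 (gE hN he i n) = (S0 (gE hN he i n) - (kap N i)⁻¹ • gE hN he i n)
      + (kap N i)⁻¹ • gE hN he i n := by abel
    rw [h6]
    exact Submodule.add_mem _ (WWg_mono hN he hi.le h5) (Submodule.smul_mem _ _ (gE_mem hN he hn hi))
  refine Submodule.smul_mem _ _ (Submodule.add_mem _ ?_ ?_)
  · rcases eq_or_lt_of_le hm with rfl | hlt
    · simp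
    · exact Submodule.smul_mem _ _ (key _ _ (by omega) (by omega))
  · rcases Nat.lt_or_ge m 2 with hlt | hge
    · have : (m : ℝ) * (m - 1) / 4 = 0 := by interval_cases m <;> simp
      rw [this, zero_smul]
      exact Submodule.zero_mem _
    · exact Submodule.smul_mem _ _ (key _ _ (by omega) (by omega))

theorem WWg_tri (hN : 3 ≤ N) (he : ‖e‖ = 1) (k : ℕ) : ∀ u ∈ WWg hN he (k + 1),
    SL hN u - (kap N k)⁻¹ • u ∈ WWg hN he k := by
  intro u hu
  have h1 : WWg hN he (k + 1) ≤ (WWg hN he k).comap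
      ((SL hN).toLinearMap - (kap N k)⁻¹ • (LinearMap.id : DU N →ₗ[ℝ] DU N)) := by
    unfold WWg
    rw [Submodule.span_le]
    rintro _ ⟨⟨j, m⟩, ⟨hm, hj⟩, rfl⟩
    change S0 (gE hN he j m) - (kap N k)⁻¹ • gE hN he j m ∈ WWg hN he k
    simp only at hm hj
    have h2 : S0 (gE hN he j m) - (kap N k)⁻¹ • gE hN he j m
        = (S0 (gE hN he j m) - (kap N j)⁻¹ • gE hN he j m)
        + ((kap N j)⁻¹ - (kap N k)⁻¹) • gE hN he j m := by
      rw [sub_smul]; abel
    rw [h2]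
    refine Submodule.add_mem _ (WWg_mono hN he (Nat.lt_succ_iff.1 hj) (gE_tri hN he j m hm)) ?_
    rcases eq_or_lt_of_le (Nat.lt_succ_iff.1 hj) with rfl | hlt
    · simp
    · exact Submodule.smul_mem _ _ (gE_mem hN he hm hlt)
  exact h1 hu

/-! ### axial functions -/

/-- the axially symmetric elements -/
def AX (hN : 3 ≤ N) (e : E N) : Submodule ℝ (DU N) where
  carrier := {u | Axial e (fn (u : LV N))}
  zero_mem' := by
    refine axial_ae (h := fun _ => 0) ⟨fun _ => 0, measurable_const, ae_of_all _ fun _ => rfl⟩ ?_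
    exact (fn_zero hN).symm
  add_mem' := by
    intro u v hu hv
    refine axial_ae (axial_comp hu hv (k := fun z => z.1 + z.2) (by fun_prop)) ?_
    exact (fn_add hN u.2 v.2).symm
  smul_mem' := by
    intro c u hu
    refine axial_ae (axial_comp hu hu (k := fun z => c * z.1) (by fun_prop)) ?_
    exact (fn_smul hN c u.2).symm

theorem mem_AX (hN : 3 ≤ N) {u : DU N} : u ∈ AX hN e ↔ Axial e (fn (u : LV N)) := Iff.rfl

theorem AX_closed (hN : 3 ≤ N) : IsClosed (AX hN e : Set (DU N)) := by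
  have hN' : (3 : ℝ) ≤ N := by exact_mod_cast hN
  refine IsSeqClosed.isClosed ?_
  intro u v hu huv
  have h1 : Tendsto (fun n => (u n : LV N)) atTop (𝓝 (v : LV N)) :=
    (continuous_subtype_val.tendsto v).comp huv
  have h2 := (fn_tendsto hN (fun n => (u n).2) h1).2
  have hts : 0 < ts N := by
    unfold ts
    apply div_pos <;> linarith
  have h3 : Tendsto (fun n => eLpNorm (fun x => fn (u n : LV N) x - fn (v : LV N) x)
      (ENNReal.ofReal (ts N)) volume) atTop (𝓝 0) := by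
    have hfin : ∀ n, eLpNorm (fun x => fn (u n : LV N) x - fn (v : LV N) x)
        (ENNReal.ofReal (ts N)) volume ≠ ⊤ := by
      intro n
      have h4 := ((Mq_fn hN (u n)).sub (Mq_fn hN v)).2
      rw [Measure.restrict_univ] at h4
      exact h4.ne
    rw [← ENNReal.tendsto_toReal_iff hfin (by simp)]
    simpa [nq, Measure.restrict_univ] using h2
  exact axial_lim hts hu (fn_meas _) h3

theorem gE_axial (hN : 3 ≤ N) (he : ‖e‖ = 1) {j m : ℕ} (hm : m ≤ j) :
    gE hN he j m ∈ AX hN e := by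
  rw [mem_AX]
  refine axial_ae (h := gb N e j m) ?_ (gE_fn hN he hm).symm
  refine ⟨fun z => (1 + z.1 ^ 2) ^ (-(cc N + j)) * z.2 ^ m, by fun_prop, ae_of_all _ fun x => rfl⟩

theorem WWg_AX (hN : 3 ≤ N) (he : ‖e‖ = 1) (k : ℕ) : WWg hN he k ≤ AX hN e := by
  unfold WWg
  rw [Submodule.span_le]
  rintro _ ⟨⟨j, m⟩, ⟨hm, hj⟩, rfl⟩
  exact gE_axial hN he hm

/-- density -/
theorem AX_dense (hN : 3 ≤ N) (he : ‖e‖ = 1) {w : DU N} (hw : w ∈ AX hN e) :
    w ∈ (⨆ k, WWg hN he k).topologicalClosure := by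
  have hH : (⨆ k, WWg hN he k).topologicalClosure ≤ AX hN e := by
    refine Submodule.topologicalClosure_minimal _ ?_ (AX_closed hN)
    exact iSup_le fun k => WWg_AX hN he k
  have : (⨆ k, WWg hN he k).topologicalClosure.HasOrthogonalProjection := by
    have : CompleteSpace (⨆ k, WWg hN he k).topologicalClosure :=
      (⨆ k, WWg hN he k).isClosed_topologicalClosure.completeSpace_coe
    infer_instance
  set p : DU N := (⨆ k, WWg hN he k).topologicalClosure.starProjection w with hp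
  have hpH : p ∈ (⨆ k, WWg hN he k).topologicalClosure := Submodule.starProjection_apply_mem _ _
  have hq : w - p ∈ AX hN e := Submodule.sub_mem _ hw (hH hpH)
  have hqo : ∀ z ∈ (⨆ k, WWg hN he k).topologicalClosure, ⟪z, w - p⟫ = 0 := by
    intro z hz
    exact (Submodule.mem_orthogonal _ _).1 (Submodule.sub_starProjection_mem_orthogonal w) z hz
  have h0 : fn ((w - p : DU N) : LV N) =ᵐ[volume] fun _ => 0 := by
    refine gb_dense hN he hq ?_ ?_
    · exact Mq_fn hN (w - p)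
    · intro j m hm
      have h1 : S0 (gE hN he j m) ∈ (⨆ k, WWg hN he k).topologicalClosure := by
        refine Submodule.le_topologicalClosure _ (Submodule.mem_iSup_of_mem (j + 1) ?_)
        have h2 := gE_tri hN he j m hm
        have h3 : S0 (gE hN he j m) = (S0 (gE hN he j m) - (kap N j)⁻¹ • gE hN he j m)
            + (kap N j)⁻¹ • gE hN he j m := by abel
        rw [h3]
        exact Submodule.add_mem _ (WWg_mono hN he (Nat.le_succ _) h2)
          (Submodule.smul_mem _ _ (gE_mem hN he hm (Nat.lt_succ_self _)))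
      have h4 := hqo _ h1
      rw [S0_inner hN] at h4
      rw [← h4]
      refine integral_congr_ae ?_
      filter_upwards [gE_fn hN he hm] with x hx
      rw [hx]
      rfl
  have h5 : ((w - p : DU N) : LV N) = 0 := fn_inj hN (w - p).2 h0
  have h6 : w - p = 0 := Subtype.ext h5
  rw [sub_eq_zero.1 h6]
  exact hpH

/-- the gap, in terms of `S0` -/
theorem gap_S0 (hN : 3 ≤ N) (he : ‖e‖ = 1) {w : DU N} (hw : w ∈ AX hN e)
    (h0 : ⟪gE hN he 0 0, w⟫ = 0) (h1 : ⟪gE hN he 1 0, w⟫ = 0) (h2 : ⟪gE hN he 1 1, w⟫ = 0) :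
    ∫ x, om x * fn (w : LV N) x * fn (w : LV N) x ≤ (kap N 2)⁻¹ * ‖w‖ ^ 2 := by
  have h3 := gap_abs (SL hN) (fun x y => S0_symm hN x y) (WWg hN he) (WWg_mono hN he) (kap N)
    (kap_pos hN 2) (fun k hk => kap_mono hN hk) (WWg_tri hN he) w (AX_dense hN he hw) ?_
  · rw [SL_apply, S0_inner hN] at h3
    exact h3
  · intro z hz
    have h4 : WWg hN he 2 ≤ (ℝ ∙ w)ᗮ := by
      unfold WWg
      rw [Submodule.span_le]
      rintro _ ⟨⟨j, m⟩, ⟨hm, hj⟩, rfl⟩
      simp only at hm hj ⊢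
      rw [SetLike.mem_coe, Submodule.mem_orthogonal_singleton_iff_inner_left]
      interval_cases j
      · interval_cases m
        exact h0
      · interval_cases m
        · exact h1
        · exact h2
    exact Submodule.mem_orthogonal_singleton_iff_inner_left.1 (h4 hz)

theorem gE_inner (hN : 3 ≤ N) (he : ‖e‖ = 1) {j m : ℕ} (hm : m ≤ j) (w : DU N) :
    ⟪gE hN he j m, w⟫ = kap N j * (∫ x, om x * fn (gE hN he j m : LV N) x * fn (w : LV N) x)
      - ((cc N + j) * (j - m)) *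
        (∫ x, om x * fn (gE hN he (j - 1) m : LV N) x * fn (w : LV N) x)
      - ((m : ℝ) * (m - 1) / 4) *
        (∫ x, om x * fn (gE hN he (j - 2) (m - 2) : LV N) x * fn (w : LV N) x) := by
  rw [← S0_inner hN, ← S0_inner hN, ← S0_inner hN]
  conv_lhs => rw [gE_rel hN he hm]
  have hs : ∀ (c : ℝ) (u : DU N), ⟪c • u, w⟫ = c * ⟪u, w⟫ := by
    intro c u
    rw [Submodule.coe_inner, Submodule.coe_inner]
    exact real_inner_smul_left _ _ _
  rw [inner_sub_left, inner_sub_left, hs, hs, hs]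

/-! ### the bubble at scale one -/

theorem dnl_bub (hN : 3 ≤ N) {μ : ℝ} (hμ : 0 < μ) (ξ x : E N) :
    dnl N (bub N μ ξ x) = N * (N + 2) * μ ^ 2 / (μ ^ 2 + ‖x - ξ‖ ^ 2) ^ 2 := by
  have h : (3 : ℝ) ≤ N := by exact_mod_cast hN
  have h2 : (N : ℝ) - 2 ≠ 0 := by linarith
  have ht : 0 < μ ^ 2 + ‖x - ξ‖ ^ 2 := by positivity
  unfold dnl
  rw [bub_rpow_pm hN hμ ξ x]
  unfold pm
  field_simp
  ring

theorem dnl_bub_one (hN : 3 ≤ N) (x : E N) : dnl N (bub N 1 0 x) = kap N 1 * om x := by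
  rw [dnl_bub hN one_pos]
  unfold kap om cc
  simp
  field_simp
  ring

theorem gap_one (hN : 3 ≤ N) (he : ‖e‖ = 1) {w : LV N} (hw : w ∈ DD univ) (hA : Axial e (fn w))
    (h0 : ∫ x, nl N (bub N 1 0 x) * fn w x = 0)
    (h1 : ∫ x, dnl N (bub N 1 0 x) * bubMu N 1 0 x * fn w x = 0)
    (h2 : ∫ x, dnl N (bub N 1 0 x) * bubXi N e 1 0 x * fn w x = 0) :
    ∫ x, dnl N (bub N 1 0 x) * fn w x ^ 2 ≤ (N : ℝ) / (N + 4) * ‖w‖ ^ 2 := by
  have h : (3 : ℝ) ≤ N := by exact_mod_cast hN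
  have hc : 0 < cc N := by unfold cc; linarith
  have hal := alN_pos_aux hN
  set W : DU N := ⟨w, hw⟩ with hW
  have I00 : ∫ x, om x * fn (gE hN he 0 0 : LV N) x * fn w x = 0 := by
    have e1 : ∫ x, nl N (bub N 1 0 x) * fn w x = (kap N 0 * alN N) *
        ∫ x, om x * fn (gE hN he 0 0 : LV N) x * fn w x := by
      rw [← integral_const_mul]
      refine integral_congr_ae ?_
      filter_upwards [gE_fn hN he (le_refl 0)] with x hx
      rw [hx]
      unfold nl
      rw [bub_rpow_pm hN one_pos]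
      unfold bub gb kap om cc
      simp
      field_simp
      ring
    rw [e1] at h0
    have := kap_pos hN 0
    rcases mul_eq_zero.1 h0 with h' | h'
    · exact absurd h' (by positivity)
    · exact h'
  have I11 : ∫ x, om x * fn (gE hN he 1 1 : LV N) x * fn w x = 0 := by
    have e1 : ∫ x, dnl N (bub N 1 0 x) * bubXi N e 1 0 x * fn w x
        = (kap N 1 * (2 * cc N) * alN N) *
        ∫ x, om x * fn (gE hN he 1 1 : LV N) x * fn w x := by
      rw [← integral_const_mul]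
      refine integral_congr_ae ?_
      filter_upwards [gE_fn hN he (le_refl 1)] with x hx
      rw [hx, dnl_bub_one hN]
      unfold bubXi bub gb
      have hx : (0 : ℝ) < 1 + ‖x‖ ^ 2 := by positivity
      have e2 : (1 + ‖x‖ ^ 2) ^ (-(cc N + ((1 : ℕ) : ℝ))) = (1 + ‖x‖ ^ 2) ^ (-cc N) / (1 + ‖x‖ ^ 2) := by
        rw [← Real.rpow_sub_one hx.ne']
        congr 1
        push_cast
        ring
      rw [e2]
      simp
      ring
    rw [e1] at h2
    have := kap_pos hN 1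
    rcases mul_eq_zero.1 h2 with h' | h'
    · exact absurd h' (by positivity)
    · exact h'
  have I10 : ∫ x, om x * fn (gE hN he 1 0 : LV N) x * fn w x = 0 := by
    have e1 : ∫ x, dnl N (bub N 1 0 x) * bubMu N 1 0 x * fn w x
        = (kap N 1 * cc N * alN N) * (∫ x, om x * fn (gE hN he 0 0 : LV N) x * fn w x)
        - (2 * kap N 1 * cc N * alN N) *
        ∫ x, om x * fn (gE hN he 1 0 : LV N) x * fn w x := by
      rw [← integral_const_mul, ← integral_const_mul,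
        ← integral_sub ((S0_int hN (gE hN he 0 0) W).const_mul _)
          ((S0_int hN (gE hN he 1 0) W).const_mul _)]
      refine integral_congr_ae ?_
      filter_upwards [gE_fn hN he (le_refl 0), gE_fn hN he (zero_le_one)] with x hx0 hx1
      rw [hx0, hx1, dnl_bub_one hN]
      unfold bubMu bub gb
      have hx : (0 : ℝ) < 1 + ‖x‖ ^ 2 := by positivity
      have e2 : (1 + ‖x‖ ^ 2) ^ (-(cc N + ((1 : ℕ) : ℝ))) = (1 + ‖x‖ ^ 2) ^ (-cc N) / (1 + ‖x‖ ^ 2) := by
        rw [← Real.rpow_sub_one hx.ne']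
        congr 1
        push_cast
        ring
      rw [e2]
      simp
      field_simp
      ring
    rw [e1, I00, mul_zero, zero_sub, neg_eq_zero] at h1
    have := kap_pos hN 1
    rcases mul_eq_zero.1 h1 with h' | h'
    · exact absurd h' (by positivity)
    · exact h'
  have key := gap_S0 hN he (w := W) hA ?_ ?_ ?_
  · have e1 : ∫ x, dnl N (bub N 1 0 x) * fn w x ^ 2 = kap N 1 * ∫ x, om x * fn w x * fn w x := by
      rw [← integral_const_mul]
      refine integral_congr_ae (Eventually.of_forall fun x => ?_)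
      simp only
      rw [dnl_bub_one hN]
      ring
    have hn : ‖W‖ = ‖w‖ := rfl
    rw [hn] at key
    have h1 : (W : LV N) = w := rfl
    rw [h1] at key
    rw [e1]
    have hk1 := kap_pos hN 1
    calc kap N 1 * ∫ x, om x * fn w x * fn w x ≤ kap N 1 * ((kap N 2)⁻¹ * ‖w‖ ^ 2) := by
          gcongr
      _ = (N : ℝ) / (N + 4) * ‖w‖ ^ 2 := by
          have e3 : kap N 1 = N * (N + 2) / 4 := by unfold kap cc; push_cast; ring
          have e4 : kap N 2 = (N + 2) * (N + 4) / 4 := by unfold kap cc; push_cast; ring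
          rw [e3, e4]
          field_simp
  · rw [gE_inner hN he (le_refl 0)]
    change kap N 0 * (∫ x, om x * fn (gE hN he 0 0 : LV N) x * fn w x) - _ - _ = 0
    rw [I00]
    simp
  · rw [gE_inner hN he (zero_le_one)]
    change kap N 1 * (∫ x, om x * fn (gE hN he 1 0 : LV N) x * fn w x)
      - _ * (∫ x, om x * fn (gE hN he 0 0 : LV N) x * fn w x) - _ = 0
    rw [I10, I00]
    simp
  · rw [gE_inner hN he (le_refl 1)]
    change kap N 1 * (∫ x, om x * fn (gE hN he 1 1 : LV N) x * fn w x) - _ - _ = 0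
    rw [I11]
    simp

/-! ### scaling -/

theorem int_scale {μ : ℝ} (hμ : 0 < μ) (ξ : E N) (F : E N → ℝ) :
    ∫ x, F (μ⁻¹ • (x - ξ)) = μ ^ N * ∫ y, F y := by
  rw [integral_sub_right_eq_self (fun x => F (μ⁻¹ • x)) ξ,
    Measure.integral_comp_inv_smul_of_nonneg volume F hμ.le, finrank_euclideanSpace,
    Fintype.card_fin, smul_eq_mul]

theorem norm_scale {μ : ℝ} (hμ : 0 < μ) (ξ x : E N) :
    1 ^ 2 + ‖μ⁻¹ • (x - ξ) - 0‖ ^ 2 = (μ ^ 2 + ‖x - ξ‖ ^ 2) / μ ^ 2 := by
  rw [sub_zero, norm_smul, Real.norm_of_nonneg (by positivity)]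
  field_simp

theorem bub_scale {μ : ℝ} (hμ : 0 < μ) (ξ x : E N) :
    bub N μ ξ x = μ ^ (-cc N) * bub N 1 0 (μ⁻¹ • (x - ξ)) := by
  have ht : 0 < μ ^ 2 + ‖x - ξ‖ ^ 2 := by positivity
  unfold bub
  rw [norm_scale hμ, Real.div_rpow ht.le (by positivity), Real.one_rpow]
  have e1 : (μ ^ 2) ^ (-cc N) = μ ^ (-cc N) * μ ^ (-cc N) := by
    rw [← Real.rpow_add hμ, ← Real.rpow_natCast μ 2, ← Real.rpow_mul hμ.le]
    congr 1
    push_cast
    ring
  have e2 : μ ^ cc N = (μ ^ (-cc N))⁻¹ := by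
    rw [Real.rpow_neg hμ.le, inv_inv]
  have e3 : 0 < μ ^ (-cc N) := by positivity
  rw [e1, e2]
  field_simp

theorem dnl_scale (hN : 3 ≤ N) {μ : ℝ} (hμ : 0 < μ) (ξ x : E N) :
    dnl N (bub N μ ξ x) = (μ ^ 2)⁻¹ * dnl N (bub N 1 0 (μ⁻¹ • (x - ξ))) := by
  have ht : 0 < μ ^ 2 + ‖x - ξ‖ ^ 2 := by positivity
  rw [dnl_bub hN hμ, dnl_bub hN one_pos, norm_scale hμ]
  field_simp

theorem nl_scale (hN : 3 ≤ N) {μ : ℝ} (hμ : 0 < μ) (ξ x : E N) :
    nl N (bub N μ ξ x) = (μ ^ 2)⁻¹ * μ ^ (-cc N) * nl N (bub N 1 0 (μ⁻¹ • (x - ξ))) := by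
  have ht : 0 < μ ^ 2 + ‖x - ξ‖ ^ 2 := by positivity
  unfold nl
  rw [bub_rpow_pm hN hμ, bub_rpow_pm hN one_pos, norm_scale hμ, bub_scale hμ ξ x]
  field_simp

theorem bubMu_scale {μ : ℝ} (hμ : 0 < μ) (ξ x : E N) :
    bubMu N μ ξ x = μ ^ (-cc N) * bubMu N 1 0 (μ⁻¹ • (x - ξ)) := by
  have ht : 0 < μ ^ 2 + ‖x - ξ‖ ^ 2 := by positivity
  unfold bubMu
  have e1 : ‖μ⁻¹ • (x - ξ) - 0‖ ^ 2 - 1 ^ 2 = (‖x - ξ‖ ^ 2 - μ ^ 2) / μ ^ 2 := by
    rw [sub_zero, norm_smul, Real.norm_of_nonneg (by positivity)]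
    field_simp
  rw [norm_scale hμ, e1, bub_scale hμ ξ x]
  field_simp

theorem bubXi_scale {μ : ℝ} (hμ : 0 < μ) (ξ x : E N) :
    bubXi N e μ ξ x = μ ^ (-cc N) * bubXi N e 1 0 (μ⁻¹ • (x - ξ)) := by
  have ht : 0 < μ ^ 2 + ‖x - ξ‖ ^ 2 := by positivity
  unfold bubXi
  rw [norm_scale hμ, sub_zero, real_inner_smul_left, bub_scale hμ ξ x]
  field_simp

theorem scale_one {μ : ℝ} (hμ : 0 < μ) :
    (μ ^ 2)⁻¹ * (μ ^ (-cc N)) ^ 2 * μ ^ N = 1 := by
  have e1 : (μ ^ (-cc N)) ^ 2 = μ ^ 2 * (μ ^ N)⁻¹ := by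
    rw [← Real.rpow_natCast (μ ^ (-cc N)) 2, ← Real.rpow_mul hμ.le, ← Real.rpow_natCast μ 2,
      ← Real.rpow_natCast μ N, ← Real.rpow_neg hμ.le, ← Real.rpow_add hμ]
    congr 1
    unfold cc
    push_cast
    ring
  rw [e1]
  field_simp

theorem int_scale' {μ : ℝ} (hμ : 0 < μ) (ξ : E N) (F G : E N → ℝ)
    (h : G =ᵐ[volume] fun x => (μ ^ 2)⁻¹ * (μ ^ (-cc N)) ^ 2 * F (μ⁻¹ • (x - ξ))) :
    ∫ x, G x = ∫ x, F x := by
  rw [integral_congr_ae h]
  have h1 := int_scale hμ ξ (fun y => (μ ^ 2)⁻¹ * (μ ^ (-cc N)) ^ 2 * F y)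
  rw [h1, integral_const_mul]
  calc _ = ((μ ^ 2)⁻¹ * (μ ^ (-cc N)) ^ 2 * μ ^ N) * ∫ x, F x := by ring
    _ = _ := by rw [scale_one hμ, one_mul]

/-- THE GAP: for axially symmetric `w`, orthogonal to `U`, `μ∂_μ U`, `μ∂_ξ U` (centre on the axis) -/
theorem gap (hN : 3 ≤ N) {e : E N} (he : ‖e‖ = 1) {μ : ℝ} (hμ : 0 < μ) (s : ℝ)
    {w : LV N} (hw : w ∈ DD univ) (hA : Axial e (fn w))
    (h0 : ∫ x, nl N (bub N μ (s • e) x) * fn w x = 0)
    (h1 : ∫ x, dnl N (bub N μ (s • e) x) * bubMu N μ (s • e) x * fn w x = 0)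
    (h2 : ∫ x, dnl N (bub N μ (s • e) x) * bubXi N e μ (s • e) x * fn w x = 0) :
    ∫ x, dnl N (bub N μ (s • e) x) * fn w x ^ 2 ≤ (N : ℝ) / (N + 4) * ‖w‖ ^ 2 := by
  obtain ⟨A, -, hA2, hA3, -⟩ := exists_scal hμ (s • e)
  set w₀ : LV N := A.symm w with hw₀
  have hAw : A w₀ = w := by rw [hw₀]; exact A.apply_symm_apply w
  have hw0 : w₀ ∈ DD univ := (hA2 w₀).2 (by rw [hAw]; exact hw)
  have hfn := hA3 hN w₀ hw0
  rw [hAw] at hfn
  have hm : 0 < μ ^ (-cc N) := by positivity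
  have hnorm : ‖w‖ = ‖w₀‖ := by rw [← hAw]; exact A.norm_map w₀
  -- the function `w₀` is axial
  have hax : Axial e (fn w₀) := by
    have hq : Measure.QuasiMeasurePreserving (fun y : E N => s • e + μ • y) volume volume := by
      refine (measurePreserving_add_left volume (s • e)).quasiMeasurePreserving.comp
        ⟨measurable_const_smul μ, ?_⟩
      rw [Measure.map_addHaar_smul volume hμ.ne']
      exact Measure.smul_absolutelyContinuous
    obtain ⟨k, hk, hk'⟩ := hA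
    have hee : ⟪e, e⟫ = 1 := by rw [real_inner_self_eq_norm_sq, he]; norm_num
    refine ⟨fun z => (μ ^ (-cc N))⁻¹ * k (Real.sqrt (s ^ 2 + 2 * s * μ * z.2 + μ ^ 2 * z.1 ^ 2),
      s + μ * z.2), by fun_prop, ?_⟩
    filter_upwards [hq.ae hfn, hq.ae hk'] with y hy hy'
    rw [add_sub_cancel_left, smul_smul, inv_mul_cancel₀ hμ.ne', one_smul] at hy
    have e1 : ‖s • e + μ • y‖ = Real.sqrt (s ^ 2 + 2 * s * μ * ⟪y, e⟫ + μ ^ 2 * ‖y‖ ^ 2) := by
      rw [← Real.sqrt_sq (norm_nonneg (s • e + μ • y)), norm_add_sq_real, norm_smul, norm_smul,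
        real_inner_smul_left, real_inner_smul_right, he, real_inner_comm y e]
      congr 1
      rw [mul_one, Real.norm_eq_abs, Real.norm_eq_abs, sq_abs, mul_pow, sq_abs]
      ring
    have e2 : ⟪s • e + μ • y, e⟫ = s + μ * ⟪y, e⟫ := by
      rw [inner_add_left, real_inner_smul_left, real_inner_smul_left, hee, mul_one]
    rw [e1, e2] at hy'
    rw [← hy', hy]
    field_simp
  have key := gap_one hN he hw0 hax ?_ ?_ ?_
  · rw [hnorm]
    refine le_trans (le_of_eq ?_) key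
    refine int_scale' hμ (s • e) _ _ ?_
    filter_upwards [hfn] with x hx
    rw [hx, dnl_scale hN hμ]
    ring
  · rw [← h0]
    symm
    refine int_scale' hμ (s • e) _ _ ?_
    filter_upwards [hfn] with x hx
    rw [hx, nl_scale hN hμ]
    ring
  · rw [← h1]
    symm
    refine int_scale' hμ (s • e) _ _ ?_
    filter_upwards [hfn] with x hx
    rw [hx, dnl_scale hN hμ, bubMu_scale hμ]
    ring
  · rw [← h2]
    symm
    refine int_scale' hμ (s • e) _ _ ?_
    filter_upwards [hfn] with x hx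
    rw [hx, dnl_scale hN hμ, bubXi_scale hμ]
    ring

end Pool.Agent.helper13.BN
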