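import Pool.Agent.helper58.BN.Solve
import Pool.Agent.helper68.BN.Rep
import Pool.Agent.helper41.BN.Pw
import Pool.Agent.helper13.BN.Defs2
import Pool.Agent.helper16.BN.Chain
import Pool.Agent.helper74.BN.Sup
import Pool.Agent.helper88.BN.Refl
import Pool.Agent.helper88.BN.ReflEst

/-!
# MP_94a57f_an: regularity along spheres (module BN-C8)
-/

set_option autoImplicit false
open MeasureTheory Filter Topology Set Metric
open scoped ContDiff Gradient RealInnerProductSpace ENNReal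

noncomputable section
namespace Pool.Agent.helper13.BN
variable {N : ℕ}

namespace TR

/-! ### general lemmas -/

theorem ann_open (ρ : ℝ) : IsOpen (ann N ρ) := by
  have h : ann N ρ = {x | ρ < ‖x‖} ∩ {x | ‖x‖ < 1} := rfl
  rw [h]
  exact (isOpen_lt continuous_const continuous_norm).inter
    (isOpen_lt continuous_norm continuous_const)

theorem ae_le_cont {Ω : Set (E N)} (hΩ : IsOpen Ω) {F G : E N → ℝ} (hF : ContinuousOn F Ω)
    (hG : ContinuousOn G Ω) (h : ∀ᵐ x, x ∈ Ω → F x ≤ G x) : ∀ x ∈ Ω, F x ≤ G x := by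
  intro x₀ hx₀
  by_contra hlt
  push Not at hlt
  have hFx : ContinuousAt F x₀ := hF.continuousAt (hΩ.mem_nhds hx₀)
  have hGx : ContinuousAt G x₀ := hG.continuousAt (hΩ.mem_nhds hx₀)
  have h1 : ∀ᶠ x in 𝓝 x₀, G x < F x := hGx.eventually_lt hFx hlt
  have h2 : ∀ᶠ x in 𝓝 x₀, x ∈ Ω := hΩ.mem_nhds hx₀
  have h3 : x₀ ∈ closure {x | x ∈ Ω → F x ≤ G x} := Measure.dense_of_ae h x₀
  obtain ⟨x, hx, hx1, hx2⟩ := ((mem_closure_iff_frequently.1 h3).and_eventually (h1.and h2)).exists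
  exact absurd (hx hx2) (not_le.2 hx1)

theorem rep_unique {Ω : Set (E N)} (hΩ : IsOpen Ω) {w : LV N} {v v' : E N → ℝ}
    (h : IsRep Ω w v) (h' : IsRep Ω w v') : ∀ x ∈ Ω, v x = v' x := by
  intro x hx
  refine le_antisymm (ae_le_cont hΩ h.1 h'.1 ?_ x hx) (ae_le_cont hΩ h'.1 h.1 ?_ x hx)
  · filter_upwards [h.2.2, h'.2.2] with y hy hy' _
    rw [← hy, ← hy']
  · filter_upwards [h.2.2, h'.2.2] with y hy hy' _
    rw [← hy, ← hy']

theorem int_test {Ω : Set (E N)} (hΩ : MeasurableSet Ω) {g : E N → ℝ} {K : ℝ}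
    (hgm : AEStronglyMeasurable g (volume.restrict Ω)) (hK : ∀ᵐ x, x ∈ Ω → |g x| ≤ K)
    {φ : E N → ℝ} (hφ : IsTest Ω φ) : Integrable (fun x => g x * φ x) volume := by
  have h1 : Integrable φ volume := hφ.1.continuous.integrable_of_hasCompactSupport hφ.2.1
  have h2 : IntegrableOn (fun x => g x * φ x) Ω volume := by
    have h3 : Integrable (fun x => g x * φ x) (volume.restrict Ω) := by
      refine Integrable.bdd_mul (c := K) h1.restrict hgm ?_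
      rw [ae_restrict_iff' hΩ]
      exact hK
    exact h3
  rw [← integrableOn_iff_integrable_of_support_subset (s := Ω)]
  · exact h2
  · intro x hx
    have h4 : φ x ≠ 0 := fun h => hx (by simp [h])
    exact hφ.2.2 (subset_tsupport φ h4)

theorem weak_lin {Ω : Set (E N)} {w w' : LV N} {g g' : E N → ℝ} (h : Weak Ω w g)
    (h' : Weak Ω w' g') (hi : ∀ φ : E N → ℝ, IsTest Ω φ → Integrable (fun x => g x * φ x) volume)
    (hi' : ∀ φ : E N → ℝ, IsTest Ω φ → Integrable (fun x => g' x * φ x) volume) (a b : ℝ) :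
    Weak Ω (a • w + b • w') (fun x => a * g x + b * g' x) := by
  refine ⟨Submodule.add_mem _ (Submodule.smul_mem _ _ h.1) (Submodule.smul_mem _ _ h'.1),
    fun φ W hφ hW => ?_⟩
  rw [inner_add_left, real_inner_smul_left, real_inner_smul_left, h.2 φ W hφ hW, h'.2 φ W hφ hW,
    ← integral_const_mul, ← integral_const_mul,
    ← integral_add ((hi φ hφ).const_mul a) ((hi' φ hφ).const_mul b)]
  refine integral_congr_ae (Eventually.of_forall fun x => ?_)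
  simp only
  ring

theorem rep_lin (hN : 3 ≤ N) {Ω : Set (E N)} {w w' : LV N} {v v' : E N → ℝ} (hw : w ∈ DD univ)
    (hw' : w' ∈ DD univ) (h : IsRep Ω w v) (h' : IsRep Ω w' v') (a b : ℝ) :
    IsRep Ω (a • w + b • w') (fun x => a * v x + b * v' x) := by
  refine ⟨(h.1.const_smul a).add (h'.1.const_smul b), fun x hx => ?_, ?_⟩
  · simp only
    rw [h.2.1 x hx, h'.2.1 x hx]; simp
  · filter_upwards [fn_add hN (Submodule.smul_mem _ a hw) (Submodule.smul_mem _ b hw'),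
      fn_smul hN a hw, fn_smul hN b hw', h.2.2, h'.2.2] with x h1 h2 h3 h4 h5
    rw [h1, h2, h3, h4, h5]

/-! ### isometries -/

theorem mem_ann_iso (R : E N ≃ₗᵢ[ℝ] E N) {ρ : ℝ} (x : E N) : x ∈ ann N ρ ↔ R x ∈ ann N ρ := by
  simp [ann]

theorem iso_mp (R : E N ≃ₗᵢ[ℝ] E N) {ρ : ℝ} :
    MeasurePreserving R (volume.restrict (ann N ρ)) (volume.restrict (ann N ρ)) := by
  have h := R.measurePreserving.restrict_preimage (s := ann N ρ) (ann_open ρ).measurableSet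
  have h1 : R ⁻¹' (ann N ρ) = ann N ρ := by
    ext x
    exact (mem_ann_iso R x).symm
  rwa [h1] at h

theorem meas_iso (R : E N ≃ₗᵢ[ℝ] E N) {ρ : ℝ} {g : E N → ℝ}
    (hgm : AEStronglyMeasurable g (volume.restrict (ann N ρ))) :
    AEStronglyMeasurable (fun x => g (R x)) (volume.restrict (ann N ρ)) :=
  hgm.comp_quasiMeasurePreserving (iso_mp R).quasiMeasurePreserving

theorem rep_iso (hN : 3 ≤ N) (R : E N ≃ₗᵢ[ℝ] E N) {ρ : ℝ} {w : LV N} {v : E N → ℝ}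
    (hw : w ∈ DD univ) (h : IsRep (ann N ρ) w v) :
    IsRep (ann N ρ) (rot R w) (fun x => v (R x)) := by
  refine ⟨?_, fun x hx => ?_, ?_⟩
  · exact h.1.comp R.continuous.continuousOn fun x hx => (mem_ann_iso R x).1 hx
  · exact h.2.1 _ fun h' => hx ((mem_ann_iso R x).2 h')
  · have h1 : ∀ᵐ x, fn w (R x) = v (R x) := R.measurePreserving.quasiMeasurePreserving.ae h.2.2
    filter_upwards [fn_rot hN R hw, h1] with x hx hx1
    rw [hx, hx1]

theorem refl_eq {n : E N} (hn : ‖n‖ = 1) (x : E N) : refl n x = (ℝ ∙ n)ᗮ.reflection x := by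
  rw [Submodule.reflection_orthogonal_apply, Submodule.reflection_singleton_apply, hn]
  unfold refl
  rw [real_inner_comm]
  simp [mul_smul, two_smul]

/-- the reflection exchanging two points of a sphere -/
theorem refl_swap {x y : E N} (h : ‖x‖ = ‖y‖) (hxy : x ≠ y) :
    ‖(‖x - y‖⁻¹ • (x - y) : E N)‖ = 1 ∧ refl (‖x - y‖⁻¹ • (x - y)) x = y := by
  have h0 : 0 < ‖x - y‖ := norm_pos_iff.2 (sub_ne_zero.2 hxy)
  refine ⟨?_, ?_⟩
  · rw [norm_smul, norm_inv, norm_norm, inv_mul_cancel₀ h0.ne']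
  · unfold refl
    rw [real_inner_smul_right, smul_smul]
    have h1 : 2 * ⟪x, x - y⟫ = ‖x - y‖ ^ 2 := by
      rw [inner_sub_right, real_inner_self_eq_norm_sq, norm_sub_sq_real, h]
      ring
    have h2 : 2 * (‖x - y‖⁻¹ * ⟪x, x - y⟫) * ‖x - y‖⁻¹ = 1 := by
      have : 2 * (‖x - y‖⁻¹ * ⟪x, x - y⟫) * ‖x - y‖⁻¹ = (2 * ⟪x, x - y⟫) * (‖x - y‖⁻¹) ^ 2 := by
        ring
      rw [this, h1]
      field_simp
    rw [h2]
    simp

end TR

open TR

theorem rep_exists (hN : 3 ≤ N) {ρ : ℝ} (hρ : 0 < ρ) (hρ1 : ρ < 1) {w : LV N} {g : E N → ℝ} {K : ℝ}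
    (hgm : AEStronglyMeasurable g (volume.restrict (ann N ρ)))
    (hw : Weak (ann N ρ) w g) (hK : ∀ᵐ x, x ∈ ann N ρ → |g x| ≤ K) :
    ∃ v, IsRep (ann N ρ) w v ∧ (∀ x ∈ ann N ρ, |v x| ≤ K * (1 - ‖x‖ ^ 2) / (2 * N)) ∧
      (∀ x ∈ ann N ρ, ∀ y ∈ ann N ρ, ‖x‖ = ‖y‖ → |v x - v y| ≤ K * ‖x - y‖) := by
  obtain ⟨C, -, hC⟩ := exists_rep N hN
  obtain ⟨v, hv1, hv2, hv3, -⟩ := hC (ann N ρ) (ann_open ρ) w g K hgm hw hK
  refine ⟨v, ⟨hv1, hv2, hv3⟩, ?_, ?_⟩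
  · refine ae_le_cont (ann_open ρ) hv1.abs (by fun_prop) ?_
    have hb : ann N ρ ⊆ ball 0 1 := fun x hx => by simpa using hx.2
    filter_upwards [comp_ball hN (ann_open ρ) hb hgm hw hK, hv3] with x hx hx1 hxm
    rw [← hx1]
    exact hx hxm
  · intro x hx y hy hxy
    rcases eq_or_ne x y with rfl | hne
    · simp
    obtain ⟨hn, hr⟩ := refl_swap hxy hne
    set n : E N := ‖x - y‖⁻¹ • (x - y) with hndef
    set R : E N ≃ₗᵢ[ℝ] E N := (ℝ ∙ n)ᗮ.reflection with hR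
    have key : ∀ z ∈ ann N ρ, |v z - v (R z)| ≤ K * ‖z - R z‖ := by
      refine ae_le_cont (ann_open ρ) ?_ ?_ ?_
      · exact (hv1.sub (hv1.comp R.continuous.continuousOn
          fun z hz => (mem_ann_iso R z).1 hz)).abs
      · exact (continuous_const.mul (continuous_id.sub R.continuous).norm).continuousOn
      · have h1 : ∀ᵐ z, fn w (R z) = v (R z) := R.measurePreserving.quasiMeasurePreserving.ae hv3
        filter_upwards [refl_est hN hρ hρ1 hn hgm hw hK, hv3, h1] with z hz hz1 hz2 hzm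
        have h2 := hz hzm
        rw [refl_eq hn] at h2
        rw [← hz1, ← hz2]
        exact h2
    have h3 : R x = y := by rw [hR, ← refl_eq hn, hr]
    have h4 := key x hx
    rwa [h3] at h4

theorem Tan_add {ρ K K' : ℝ} {g g' : E N → ℝ} (h : Tan ρ K g) (h' : Tan ρ K' g') :
    Tan ρ (K + K') (fun x => g x + g' x) := by
  refine ⟨fun x hx => ?_, fun x hx y hy hxy => ?_, fun R k hR x hx => ?_⟩
  · exact (abs_add_le _ _).trans (add_le_add (h.1 x hx) (h'.1 x hx))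
  · have e : g x + g' x - (g y + g' y) = (g x - g y) + (g' x - g' y) := by ring
    rw [e, add_mul]
    exact (abs_add_le _ _).trans (add_le_add (h.2.1 x hx y hy hxy) (h'.2.1 x hx y hy hxy))
  · have e : g (R x) + g' (R x) + (g (R.symm x) + g' (R.symm x)) - 2 * (g x + g' x)
      = (g (R x) + g (R.symm x) - 2 * g x) + (g' (R x) + g' (R.symm x) - 2 * g' x) := by ring
    simp only
    rw [e, add_mul]
    exact (abs_add_le _ _).trans (add_le_add (h.2.2 R k hR x hx) (h'.2.2 R k hR x hx))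

theorem Tan_mul {ρ K : ℝ} {g : E N → ℝ} (c : ℝ) (h : Tan ρ K g) :
    Tan ρ (|c| * K) (fun x => c * g x) := by
  refine ⟨fun x hx => ?_, fun x hx y hy hxy => ?_, fun R k hR x hx => ?_⟩
  · rw [abs_mul]
    exact mul_le_mul_of_nonneg_left (h.1 x hx) (abs_nonneg _)
  · have e : c * g x - c * g y = c * (g x - g y) := by ring
    rw [e, abs_mul, mul_assoc]
    exact mul_le_mul_of_nonneg_left (h.2.1 x hx y hy hxy) (abs_nonneg _)
  · have e : c * g (R x) + c * g (R.symm x) - 2 * (c * g x)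
      = c * (g (R x) + g (R.symm x) - 2 * g x) := by ring
    simp only
    rw [e, abs_mul, mul_assoc]
    exact mul_le_mul_of_nonneg_left (h.2.2 R k hR x hx) (abs_nonneg _)

theorem TR.iso_small {R : E N ≃ₗᵢ[ℝ] E N} {k : ℝ} (hR : ∀ x, ‖R x - x‖ ≤ k * ‖x‖) {ρ : ℝ}
    (hρ : 0 < ρ) {x : E N} (hx : x ∈ ann N ρ) :
    0 ≤ k ∧ ‖R x - x‖ ≤ k ∧ ‖x - R.symm x‖ ≤ k := by
  have hx0 : 0 < ‖x‖ := hρ.trans hx.1
  have hk : 0 ≤ k := by
    have := (norm_nonneg _).trans (hR x)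
    by_contra h
    push Not at h
    nlinarith
  refine ⟨hk, (hR x).trans ?_, ?_⟩
  · nlinarith [hx.2]
  · have h1 := hR (R.symm x)
    rw [R.apply_symm_apply, R.symm.norm_map] at h1
    exact h1.trans (by nlinarith [hx.2])

/-- composition with `nl`, `N ≤ 5` -/
theorem Tan_nl (hN : 3 ≤ N) (hN5 : N ≤ 5) (K : ℝ) : ∃ C : ℝ, 0 < C ∧ ∀ (ρ : ℝ) (g : E N → ℝ),
    Tan ρ K g → Tan ρ C (fun x => nl N (g x)) := by
  obtain ⟨C1, hC1, h1⟩ := nl_lip hN hN5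
  obtain ⟨C2, hC2, h2⟩ := nl_taylor hN hN5
  have hpm := pw_pm_ge hN hN5
  set A : ℝ := |K| + 1 with hA
  have hA1 : 1 ≤ A := by rw [hA]; linarith [abs_nonneg K]
  have hKA : K ≤ A := by rw [hA]; linarith [le_abs_self K]
  have hA0 : 0 < A := by linarith
  refine ⟨C1 * (2 * A ^ pm N) * A + ((pm N + 1) * A ^ pm N * A
    + 2 * (C2 * (2 * (2 * A) ^ (pm N - 1)) * A ^ 2)), by positivity, ?_⟩
  intro ρ g hg
  have hrp : ∀ u : ℝ, |u| ≤ A → |u| ^ pm N ≤ A ^ pm N := fun u hu =>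
    Real.rpow_le_rpow (abs_nonneg _) hu (by linarith)
  have hT1 : 0 ≤ C1 * (2 * A ^ pm N) * A := by positivity
  have hT2 : 0 ≤ (pm N + 1) * A ^ pm N * A + 2 * (C2 * (2 * (2 * A) ^ (pm N - 1)) * A ^ 2) := by
    positivity
  have hlip : ∀ u v : ℝ, |u| ≤ A → |v| ≤ A → |nl N u - nl N v| ≤ C1 * (2 * A ^ pm N) * |u - v| := by
    intro u v hu hv
    refine (h1 u v).trans ?_
    have := hrp u hu
    have := hrp v hv
    gcongr
    linarith
  have hb : ∀ x ∈ ann N ρ, |g x| ≤ A := fun x hx => (hg.1 x hx).trans hKA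
  refine ⟨fun x hx => ?_, fun x hx y hy hxy => ?_, fun R k hR x hx => ?_⟩
  · have h3 := hlip (g x) 0 (hb x hx) (by simp [hA0.le])
    have h0 : nl N 0 = 0 := by simp [nl]
    rw [h0, sub_zero, sub_zero] at h3
    have h4 : C1 * (2 * A ^ pm N) * |g x| ≤ C1 * (2 * A ^ pm N) * A := by
      gcongr
      exact hb x hx
    linarith
  · have h3 := hlip (g x) (g y) (hb x hx) (hb y hy)
    have h4 : |g x - g y| ≤ A * ‖x - y‖ := (hg.2.1 x hx y hy hxy).trans (by gcongr)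
    calc |nl N (g x) - nl N (g y)| ≤ C1 * (2 * A ^ pm N) * |g x - g y| := h3
      _ ≤ C1 * (2 * A ^ pm N) * (A * ‖x - y‖) := by gcongr
      _ = (C1 * (2 * A ^ pm N) * A) * ‖x - y‖ := by ring
      _ ≤ _ := by
        gcongr
        linarith
  · have hRx : R x ∈ ann N ρ := (mem_ann_iso R x).1 hx
    have hRs : R.symm x ∈ ann N ρ := (mem_ann_iso R.symm x).1 hx
    have hK0 : 0 ≤ K := (abs_nonneg _).trans (hg.1 x hx)
    have hkk : 0 ≤ k ^ 2 := sq_nonneg k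
    -- differences
    have hd1 : (g (R x) - g x) ^ 2 ≤ A ^ 2 * k ^ 2 := by
      have h3 : |g (R x) - g x| ≤ K * ‖R x - x‖ := hg.2.1 _ hRx _ hx (R.norm_map x)
      have h4 : ‖R x - x‖ ≤ |k| := by
        refine (hR x).trans ?_
        have := hx.2
        have h5 : k * ‖x‖ ≤ |k| * ‖x‖ := mul_le_mul_of_nonneg_right (le_abs_self k) (norm_nonneg x)
        nlinarith [abs_nonneg k, norm_nonneg x]
      have h5 : |g (R x) - g x| ≤ A * |k| := h3.trans (by gcongr)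
      rw [← sq_abs, ← sq_abs k, ← mul_pow]
      gcongr
    have hd2 : (g (R.symm x) - g x) ^ 2 ≤ A ^ 2 * k ^ 2 := by
      have h3 : |g (R.symm x) - g x| ≤ K * ‖R.symm x - x‖ :=
        hg.2.1 _ hRs _ hx (R.symm.norm_map x)
      have h4 : ‖R.symm x - x‖ ≤ |k| := by
        have h6 := hR (R.symm x)
        rw [R.apply_symm_apply, R.symm.norm_map, norm_sub_rev] at h6
        refine h6.trans ?_
        have := hx.2
        have h5 : k * ‖x‖ ≤ |k| * ‖x‖ := mul_le_mul_of_nonneg_right (le_abs_self k) (norm_nonneg x)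
        nlinarith [abs_nonneg k, norm_nonneg x]
      have h5 : |g (R.symm x) - g x| ≤ A * |k| := h3.trans (by gcongr)
      rw [← sq_abs, ← sq_abs k, ← mul_pow]
      gcongr
    have hq : ∀ a : ℝ, |a| ≤ A → (a - g x) ^ 2 ≤ A ^ 2 * k ^ 2 →
        |nl N a - nl N (g x) - dnl N (g x) * (a - g x)|
          ≤ C2 * (2 * (2 * A) ^ (pm N - 1)) * A ^ 2 * k ^ 2 := by
      intro a ha hd
      have h3 := h2 (g x) (a - g x)
      rw [add_sub_cancel] at h3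
      have hx' := hb x hx
      have h4 : |g x| ^ (pm N - 1) ≤ (2 * A) ^ (pm N - 1) :=
        Real.rpow_le_rpow (abs_nonneg _) (by linarith) (by linarith)
      have h5 : |a - g x| ^ (pm N - 1) ≤ (2 * A) ^ (pm N - 1) := by
        refine Real.rpow_le_rpow (abs_nonneg _) ?_ (by linarith)
        have := abs_sub a (g x)
        linarith
      calc _ ≤ C2 * (|g x| ^ (pm N - 1) + |a - g x| ^ (pm N - 1)) * (a - g x) ^ 2 := h3
        _ ≤ C2 * (2 * (2 * A) ^ (pm N - 1)) * (A ^ 2 * k ^ 2) := by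
            gcongr
            linarith
        _ = _ := by ring
    have h3 := hq _ (hb _ hRx) hd1
    have h4 := hq _ (hb _ hRs) hd2
    have h5 : |dnl N (g x) * (g (R x) + g (R.symm x) - 2 * g x)|
        ≤ (pm N + 1) * A ^ pm N * A * k ^ 2 := by
      rw [abs_mul]
      have h6 : |dnl N (g x)| ≤ (pm N + 1) * A ^ pm N := by
        unfold dnl
        rw [abs_of_nonneg (by positivity)]
        have := hrp (g x) (hb x hx)
        gcongr
      have h7 : |g (R x) + g (R.symm x) - 2 * g x| ≤ A * k ^ 2 :=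
        (hg.2.2 R k hR x hx).trans (by gcongr)
      calc _ ≤ ((pm N + 1) * A ^ pm N) * (A * k ^ 2) := by gcongr
        _ = _ := by ring
    have e : nl N (g (R x)) + nl N (g (R.symm x)) - 2 * nl N (g x)
      = (nl N (g (R x)) - nl N (g x) - dnl N (g x) * (g (R x) - g x))
        + (nl N (g (R.symm x)) - nl N (g x) - dnl N (g x) * (g (R.symm x) - g x))
        + dnl N (g x) * (g (R x) + g (R.symm x) - 2 * g x) := by ring
    simp only
    rw [e]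
    refine (abs_add_three _ _ _).trans ?_
    have h8 : 0 ≤ C1 * (2 * A ^ pm N) * A * k ^ 2 := by positivity
    nlinarith

/-- second differences: if `Tan K g`, the solution satisfies `Tan K` with the boundary factor -/
theorem tan_weak (hN : 3 ≤ N) {ρ : ℝ} (hρ : 0 < ρ) (hρ1 : ρ < 1) {w : LV N} {g v : E N → ℝ} {K : ℝ}
    (hgm : AEStronglyMeasurable g (volume.restrict (ann N ρ)))
    (hw : Weak (ann N ρ) w g) (hv : IsRep (ann N ρ) w v) (hK : 0 ≤ K)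
    (h1 : ∀ x ∈ ann N ρ, |g x| ≤ K)
    (h2 : ∀ x ∈ ann N ρ, ∀ y ∈ ann N ρ, ‖x‖ = ‖y‖ → |g x - g y| ≤ K * ‖x - y‖) :
    Tan ρ K v ∧ (Tan ρ K g → ∀ (R : E N ≃ₗᵢ[ℝ] E N) (k : ℝ), (∀ x, ‖R x - x‖ ≤ k * ‖x‖) →
      ∀ x ∈ ann N ρ, |v (R x) + v (R.symm x) - 2 * v x| ≤ K * k ^ 2 * (1 - ‖x‖)) := by
  have hN' : (3 : ℝ) ≤ N := by exact_mod_cast hN
  have hwU : w ∈ DD univ := DD_mono (subset_univ _) hw.1
  have hΩm : MeasurableSet (ann N ρ) := (ann_open ρ).measurableSet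
  obtain ⟨v₀, hv₀, hb₀, hd₀⟩ := rep_exists hN hρ hρ1 hgm hw (ae_of_all _ h1)
  have hvv : ∀ x ∈ ann N ρ, v x = v₀ x := rep_unique (ann_open ρ) hv hv₀
  have hfac : ∀ x ∈ ann N ρ, (1 - ‖x‖ ^ 2) / (2 * N) ≤ 1 - ‖x‖ ∧ 0 ≤ 1 - ‖x‖ := by
    intro x hx
    have hx1 := hx.2
    have hx0 : 0 ≤ ‖x‖ := norm_nonneg x
    refine ⟨?_, by linarith⟩
    rw [div_le_iff₀ (by positivity)]
    nlinarith
  have hgint : ∀ φ : E N → ℝ, IsTest (ann N ρ) φ → Integrable (fun x => g x * φ x) volume :=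
    fun φ hφ => int_test hΩm hgm (ae_of_all _ h1) hφ
  have hgR : ∀ R : E N ≃ₗᵢ[ℝ] E N, ∀ φ : E N → ℝ, IsTest (ann N ρ) φ →
      Integrable (fun x => g (R x) * φ x) volume := fun R φ hφ =>
    int_test hΩm (meas_iso R hgm) (ae_of_all _ fun x hx => h1 _ ((mem_ann_iso R x).1 hx)) hφ
  have hRmem : ∀ (R : E N ≃ₗᵢ[ℝ] E N) (x : E N), x ∈ ann N ρ → R x ∈ ann N ρ := fun R x hx =>
    (mem_ann_iso R x).1 hx
  have hWR : ∀ R : E N ≃ₗᵢ[ℝ] E N, Weak (ann N ρ) (rot R w) (fun x => g (R x)) := fun R =>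
    weak_rot R (fun x => mem_ann_iso R x) hw
  have hWRU : ∀ R : E N ≃ₗᵢ[ℝ] E N, rot R w ∈ DD univ := fun R =>
    DD_mono (subset_univ _) (hWR R).1
  refine ⟨⟨fun x hx => ?_, fun x hx y hy hxy => ?_, fun R k hR x hx => ?_⟩,
    fun hT R k hR x hx => ?_⟩
  · rw [hvv x hx]
    refine (hb₀ x hx).trans ?_
    rw [mul_div_assoc]
    have := hfac x hx
    have h3 : (1 - ‖x‖ ^ 2) / (2 * N) ≤ 1 := this.1.trans (by linarith [norm_nonneg x])
    nlinarith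
  · rw [hvv x hx, hvv y hy]
    exact hd₀ x hx y hy hxy
  · obtain ⟨hk, hk1, hk2⟩ := iso_small hR hρ hx
    -- first difference
    have hζ := weak_lin (hWR R) hw (hgR R) hgint 1 (-1)
    have hζr := rep_lin hN (hWRU R) hwU (rep_iso hN R hwU hv) hv 1 (-1)
    have hζb : ∀ x ∈ ann N ρ, |1 * g (R x) + -1 * g x| ≤ K * k := by
      intro x hx
      obtain ⟨-, hk1, -⟩ := iso_small hR hρ hx
      have h3 := h2 (R x) (hRmem R x hx) x hx (R.norm_map x)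
      have e : 1 * g (R x) + -1 * g x = g (R x) - g x := by ring
      rw [e]
      exact h3.trans (mul_le_mul_of_nonneg_left hk1 hK)
    have hζm : AEStronglyMeasurable (fun x => 1 * g (R x) + -1 * g x)
        (volume.restrict (ann N ρ)) := ((meas_iso R hgm).const_mul 1).add (hgm.const_mul (-1))
    obtain ⟨v₁, hv₁, -, hd₁⟩ := rep_exists hN hρ hρ1 hζm hζ (ae_of_all _ hζb)
    have hvv1 : ∀ x ∈ ann N ρ, v₁ x = 1 * v (R x) + -1 * v x :=
      rep_unique (ann_open ρ) hv₁ hζr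
    have hsx : R.symm x ∈ ann N ρ := hRmem R.symm x hx
    have h3 := hd₁ x hx (R.symm x) hsx (R.symm.norm_map x).symm
    rw [hvv1 x hx, hvv1 _ hsx, R.apply_symm_apply] at h3
    have e : 1 * v (R x) + -1 * v x - (1 * v x + -1 * v (R.symm x))
      = v (R x) + v (R.symm x) - 2 * v x := by ring
    rw [e] at h3
    refine h3.trans ?_
    calc K * k * ‖x - R.symm x‖ ≤ K * k * k := mul_le_mul_of_nonneg_left hk2 (by positivity)
      _ = K * k ^ 2 := by ring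
  · have hζ := weak_lin (weak_lin (hWR R) (hWR R.symm) (hgR R) (hgR R.symm) 1 1) hw
      (fun φ hφ => by
        have := ((hgR R φ hφ).const_mul 1).add ((hgR R.symm φ hφ).const_mul 1)
        refine this.congr (Eventually.of_forall fun x => ?_)
        simp only [Pi.add_apply]
        ring) hgint 1 (-2)
    have hmem : (1 : ℝ) • rot R w + (1 : ℝ) • rot R.symm w ∈ DD univ :=
      Submodule.add_mem _ (Submodule.smul_mem _ _ (hWRU R)) (Submodule.smul_mem _ _ (hWRU R.symm))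
    have hζr := rep_lin hN hmem hwU (rep_lin hN (hWRU R) (hWRU R.symm) (rep_iso hN R hwU hv)
      (rep_iso hN R.symm hwU hv) 1 1) hv 1 (-2)
    have hζb : ∀ x ∈ ann N ρ, |1 * (1 * g (R x) + 1 * g (R.symm x)) + -2 * g x| ≤ K * k ^ 2 := by
      intro x hx
      have e : 1 * (1 * g (R x) + 1 * g (R.symm x)) + -2 * g x
        = g (R x) + g (R.symm x) - 2 * g x := by ring
      rw [e]
      exact hT.2.2 R k hR x hx
    have hζm : AEStronglyMeasurable (fun x => 1 * (1 * g (R x) + 1 * g (R.symm x)) + -2 * g x)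
        (volume.restrict (ann N ρ)) :=
      ((((meas_iso R hgm).const_mul 1).add ((meas_iso R.symm hgm).const_mul 1)).const_mul 1).add
        (hgm.const_mul (-2))
    obtain ⟨v₁, hv₁, hb₁, -⟩ := rep_exists hN hρ hρ1 hζm hζ (ae_of_all _ hζb)
    have hvv1 : ∀ x ∈ ann N ρ, v₁ x = 1 * (1 * v (R x) + 1 * v (R.symm x)) + -2 * v x :=
      rep_unique (ann_open ρ) hv₁ hζr
    have h3 := hb₁ x hx
    rw [hvv1 x hx] at h3
    have e : 1 * (1 * v (R x) + 1 * v (R.symm x)) + -2 * v x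
      = v (R x) + v (R.symm x) - 2 * v x := by ring
    rw [e] at h3
    refine h3.trans ?_
    rw [mul_div_assoc]
    exact mul_le_mul_of_nonneg_left (hfac x hx).1 (by positivity)

namespace TR

theorem Tan_mono {ρ K K' : ℝ} {g : E N → ℝ} (h : Tan ρ K g) (hK : K ≤ K') : Tan ρ K' g := by
  refine ⟨fun x hx => (h.1 x hx).trans hK, fun x hx y hy hxy => ?_, fun R k hR x hx => ?_⟩
  · exact (h.2.1 x hx y hy hxy).trans (by gcongr)
  · exact (h.2.2 R k hR x hx).trans (by gcongr)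

theorem cyl_cont {ρ : ℝ} (hρ : 0 < ρ) {e : E N} {y q : ℝ → ℝ} (hy : Continuous y)
    (hq : Continuous q) : ContinuousOn (cyl N e y q) (ann N ρ) := by
  intro x hx
  have hx0 : 0 < ‖x‖ := hρ.trans hx.1
  refine ContinuousAt.continuousWithinAt ?_
  unfold cyl
  refine ContinuousAt.mul (ContinuousAt.mul ?_ ?_) ?_
  · exact continuous_norm.continuousAt.rpow_const (Or.inl hx0.ne')
  · exact hy.continuousAt.comp
      (ContinuousAt.neg (ContinuousAt.log continuous_norm.continuousAt hx0.ne'))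
  · exact hq.continuousAt.comp
      (ContinuousAt.div (by fun_prop) continuous_norm.continuousAt hx0.ne')

theorem nl_cont (hN : 3 ≤ N) (hN5 : N ≤ 5) : Continuous (nl N) := by
  refine continuous_iff_continuousAt.2 fun u => (hasDerivAt_nl hN hN5 u).continuousAt

/-- `|nl u| ≤ A^{p-1} |u|` for `|u| ≤ A` -/
theorem nl_le (hN : 3 ≤ N) (hN5 : N ≤ 5) {A u : ℝ} (hu : |u| ≤ A) :
    |nl N u| ≤ A ^ pm N * |u| := by
  have hpm := pw_pm_ge hN hN5
  unfold nl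
  rw [abs_mul, abs_of_nonneg (by positivity : 0 ≤ |u| ^ pm N)]
  gcongr

theorem ts_ge3 (hN : 3 ≤ N) (hN5 : N ≤ 5) : 3 ≤ ts N := by
  unfold ts
  interval_cases N <;> norm_num

theorem nq_add_le {q : ℝ} (hq : 1 ≤ q) {Ω : Set (E N)} {f g : E N → ℝ} (hf : Mq q Ω f)
    (hg : Mq q Ω g) : nq q Ω (fun x => f x + g x) ≤ nq q Ω f + nq q Ω g := by
  unfold nq
  rw [← ENNReal.toReal_add hf.2.ne hg.2.ne]
  refine ENNReal.toReal_mono (ENNReal.add_ne_top.2 ⟨hf.2.ne, hg.2.ne⟩) ?_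
  exact eLpNorm_add_le hf.1 hg.1 (by
    rw [← ENNReal.ofReal_one]; exact ENNReal.ofReal_le_ofReal hq)

theorem nq_const_mul {q : ℝ} (c : ℝ) {Ω : Set (E N)} (f : E N → ℝ) :
    nq q Ω (fun x => c * f x) = |c| * nq q Ω f := by
  unfold nq
  have h : (fun x => c * f x) = c • f := rfl
  rw [h, eLpNorm_const_smul, ENNReal.toReal_mul]
  simp

theorem nq_bdd {Ω : Set (E N)} (hΩ : MeasurableSet Ω) (hΩ1 : Ω ⊆ ball 0 1) {f : E N → ℝ} {B : ℝ}
    (hB : 0 ≤ B) (hm : AEStronglyMeasurable f (volume.restrict Ω)) (h : ∀ᵐ x, x ∈ Ω → |f x| ≤ B) :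
    Mq 3 Ω f ∧ nq 3 Ω f ≤ ((volume (ball (0 : E N) 1)) ^ ((3 : ℝ)⁻¹)).toReal * B := by
  have h3 : (ENNReal.ofReal 3).toReal = 3 := ENNReal.toReal_ofReal (by norm_num)
  have h1 : ∀ᵐ x ∂(volume.restrict Ω), ‖f x‖ ≤ B := by
    rw [ae_restrict_iff' hΩ]
    exact h
  have h2 := eLpNorm_le_of_ae_bound (p := ENNReal.ofReal 3) h1
  rw [h3, Measure.restrict_apply_univ] at h2
  have hv : volume Ω ≤ volume (ball (0 : E N) 1) := measure_mono hΩ1
  have hvt : volume (ball (0 : E N) 1) ≠ ⊤ := measure_ball_lt_top.ne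
  have hvt' : (volume (ball (0 : E N) 1)) ^ ((3 : ℝ)⁻¹) ≠ ⊤ :=
    ENNReal.rpow_ne_top_of_nonneg (by norm_num) hvt
  have h4 : eLpNorm f (ENNReal.ofReal 3) (volume.restrict Ω)
      ≤ (volume (ball (0 : E N) 1)) ^ ((3 : ℝ)⁻¹) * ENNReal.ofReal B := by
    refine h2.trans ?_
    gcongr
  have h5 : (volume (ball (0 : E N) 1)) ^ ((3 : ℝ)⁻¹) * ENNReal.ofReal B ≠ ⊤ :=
    ENNReal.mul_ne_top hvt' ENNReal.ofReal_ne_top
  refine ⟨⟨hm, lt_of_le_of_lt h4 h5.lt_top⟩, ?_⟩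
  unfold nq
  refine (ENNReal.toReal_mono h5 h4).trans ?_
  rw [ENNReal.toReal_mul, ENNReal.toReal_ofReal hB]

theorem weak_congr_on {Ω : Set (E N)} {w : LV N} {g g' : E N → ℝ} (h : Weak Ω w g)
    (hg : ∀ᵐ x, x ∈ Ω → g x = g' x) : Weak Ω w g' := by
  refine ⟨h.1, fun φ W hφ hW => ?_⟩
  rw [h.2 φ W hφ hW]
  refine integral_congr_ae ?_
  filter_upwards [hg] with x hx
  by_cases hxΩ : x ∈ Ω
  · rw [hx hxΩ]
  · have : φ x = 0 := by
      by_contra h0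
      exact hxΩ (hφ.2.2 (subset_tsupport φ h0))
    rw [this, mul_zero, mul_zero]

end TR

namespace TR

theorem abs3 {a b c A B C : ℝ} (ha : |a| ≤ A) (hb : |b| ≤ B) (hc : |c| ≤ C) :
    |a + b + c| ≤ A + B + C :=
  (abs_add_three _ _ _).trans (add_le_add (add_le_add ha hb) hc)

theorem abs4 {a b c d A B C D : ℝ} (ha : |a| ≤ A) (hb : |b| ≤ B) (hc : |c| ≤ C) (hd : |d| ≤ D) :
    |a + b + c + d| ≤ A + B + C + D :=
  (abs_add_le _ _).trans (add_le_add (abs3 ha hb hc) hd)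

theorem absmul {a b A B : ℝ} (ha : |a| ≤ A) (hb : |b| ≤ B) : |a * b| ≤ A * B := by
  rw [abs_mul]
  exact mul_le_mul ha hb (abs_nonneg _) ((abs_nonneg _).trans ha)

theorem fac1 {ρ M : ℝ} (hM : 0 ≤ M) {x : E N} (hx : x ∈ ann N ρ) :
    0 ≤ 1 - ‖x‖ ∧ M * (1 - ‖x‖) ≤ M := by
  have h1 := hx.2
  have h2 := norm_nonneg x
  refine ⟨by linarith only [h1], ?_⟩
  nlinarith only [h1, h2, hM]

theorem fac2 (hN : 3 ≤ N) {ρ M : ℝ} (hM : 0 ≤ M) {x : E N} (hx : x ∈ ann N ρ) :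
    M * (1 - ‖x‖ ^ 2) / (2 * N) ≤ M * (1 - ‖x‖) := by
  have hN' : (3 : ℝ) ≤ N := by exact_mod_cast hN
  rw [mul_div_assoc]
  refine mul_le_mul_of_nonneg_left ?_ hM
  have hx1 := hx.2
  have hx0 : 0 ≤ ‖x‖ := norm_nonneg x
  rw [div_le_iff₀ (by positivity)]
  nlinarith only [hx1, hx0, hN']

/-- regularity of the rescaled function -/
theorem core3 (hN : 3 ≤ N) (hN5 : N ≤ 5) (A C₁ C₂ Λ : ℝ) (hA : 0 ≤ A) (hC₁ : 0 ≤ C₁)
    (hC₂ : 0 ≤ C₂) (hΛ : 0 ≤ Λ) :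
    ∃ B : ℝ, 0 < B ∧ ∀ (ρ : ℝ) (w : LV N) (f1 f2 v g : E N → ℝ) (α β γ b sig : ℝ),
      0 < ρ → ρ < 1 → IsRep (ann N ρ) w v → Weak (ann N ρ) w g → ContinuousOn g (ann N ρ) →
      (∀ x, g x = α * v x + β * f1 x + γ * f2 x + nl N (f1 x + b * f2 x + sig * v x)) →
      |α| ≤ Λ → |β| ≤ A → |γ| ≤ 2 * A → |b| ≤ 2 → |sig| ≤ 1 →
      (∀ x ∈ ann N ρ, |f1 x| ≤ C₁ * (1 - ‖x‖) ∧ |f2 x| ≤ C₁ * (1 - ‖x‖)) →
      Tan ρ C₁ f1 → Tan ρ C₁ f2 → (∀ x ∈ ann N ρ, |v x| ≤ C₂) →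
        (∀ x ∈ ann N ρ, |g x| ≤ B * (1 - ‖x‖)) ∧
        (∀ x ∈ ann N ρ, |v x| ≤ B * (1 - ‖x‖)) ∧
        (∀ (R : E N ≃ₗᵢ[ℝ] E N) (k : ℝ), (∀ x, ‖R x - x‖ ≤ k * ‖x‖) → ∀ x ∈ ann N ρ,
          |v (R x) + v (R.symm x) - 2 * v x| ≤ B * k ^ 2 * (1 - ‖x‖)) := by
  have hpm := pw_pm_ge hN hN5
  obtain ⟨Cl, hCl, hlip⟩ := nl_lip hN hN5
  obtain ⟨U₀, hU₀⟩ : ∃ U₀ : ℝ, U₀ = C₁ + 2 * C₁ + 1 * C₂ := ⟨_, rfl⟩
  have hU₀0 : 0 ≤ U₀ := by rw [hU₀]; positivity
  obtain ⟨K₀, hK₀⟩ : ∃ K₀ : ℝ, K₀ = Λ * C₂ + A * C₁ + 2 * A * C₁ + U₀ ^ pm N * U₀ := ⟨_, rfl⟩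
  have hK₀0 : 0 ≤ K₀ := by rw [hK₀]; positivity
  obtain ⟨U₁, hU₁⟩ : ∃ U₁ : ℝ, U₁ = C₁ + 2 * C₁ + 1 * K₀ := ⟨_, rfl⟩
  have hU₁0 : 0 ≤ U₁ := by rw [hU₁]; positivity
  obtain ⟨K₁, hK₁⟩ : ∃ K₁ : ℝ, K₁ = Λ * K₀ + A * C₁ + 2 * A * C₁ + Cl * (2 * U₁ ^ pm N) * U₁ :=
    ⟨_, rfl⟩
  have hK₁0 : 0 ≤ K₁ := by rw [hK₁]; positivity
  obtain ⟨KK, hKK⟩ : ∃ KK : ℝ, KK = K₀ + K₁ := ⟨_, rfl⟩
  have hKK0 : 0 ≤ KK := by rw [hKK]; positivity
  obtain ⟨C₅, hC₅, hTnl⟩ := Tan_nl hN hN5 (C₁ + 2 * C₁ + 1 * KK)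
  obtain ⟨K₂, hK₂⟩ : ∃ K₂ : ℝ, K₂ = Λ * KK + A * C₁ + 2 * A * C₁ + C₅ := ⟨_, rfl⟩
  have hK₂0 : 0 ≤ K₂ := by rw [hK₂]; positivity
  obtain ⟨G₁, hG₁⟩ : ∃ G₁ : ℝ, G₁ = Λ * K₀ + A * C₁ + 2 * A * C₁ + U₁ ^ pm N * U₁ := ⟨_, rfl⟩
  have hG₁0 : 0 ≤ G₁ := by rw [hG₁]; positivity
  refine ⟨K₀ + G₁ + K₂ + 1, by positivity, ?_⟩
  intro ρ w f1 f2 v g α β γ b sig hρ hρ1 hv hW hgc hge hα hβ hγ hb hsig hb12 hT1 hT2 hv0
  have hgm : AEStronglyMeasurable g (volume.restrict (ann N ρ)) :=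
    hgc.aestronglyMeasurable (ann_open ρ).measurableSet
  have hg0 : ∀ x ∈ ann N ρ, |g x| ≤ K₀ := by
    intro x hx
    rw [hge x, hK₀]
    have h1 : |f1 x| ≤ C₁ := hT1.1 x hx
    have h2 : |f2 x| ≤ C₁ := hT2.1 x hx
    have hU : |f1 x + b * f2 x + sig * v x| ≤ U₀ := by
      rw [hU₀]
      exact abs3 h1 (absmul hb h2) (absmul hsig (hv0 x hx))
    refine abs4 (absmul hα (hv0 x hx)) (absmul hβ h1) (absmul hγ h2) ?_
    refine (nl_le hN hN5 hU).trans ?_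
    gcongr
  obtain ⟨v₁, hv₁, hv₁b, hv₁d⟩ := rep_exists hN hρ hρ1 hgm hW (ae_of_all _ hg0)
  have hv₁v : ∀ x ∈ ann N ρ, v₁ x = v x := rep_unique (ann_open ρ) hv₁ hv
  have hvb : ∀ x ∈ ann N ρ, |v x| ≤ K₀ * (1 - ‖x‖) := by
    intro x hx
    rw [← hv₁v x hx]
    exact (hv₁b x hx).trans (fac2 hN hK₀0 hx)
  have hvd : ∀ x ∈ ann N ρ, ∀ y ∈ ann N ρ, ‖x‖ = ‖y‖ → |v x - v y| ≤ K₀ * ‖x - y‖ := by
    intro x hx y hy hxy
    rw [← hv₁v x hx, ← hv₁v y hy]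
    exact hv₁d x hx y hy hxy
  have hU1 : ∀ x ∈ ann N ρ, |f1 x + b * f2 x + sig * v x| ≤ U₁ * (1 - ‖x‖) := by
    intro x hx
    have h := abs3 (hb12 x hx).1 (absmul hb (hb12 x hx).2) (absmul hsig (hvb x hx))
    refine h.trans (le_of_eq ?_)
    rw [hU₁]
    ring
  have hU1' : ∀ x ∈ ann N ρ, |f1 x + b * f2 x + sig * v x| ≤ U₁ := fun x hx =>
    (hU1 x hx).trans (fac1 hU₁0 hx).2
  have hgb : ∀ x ∈ ann N ρ, |g x| ≤ G₁ * (1 - ‖x‖) := by
    intro x hx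
    rw [hge x]
    have h5 : |nl N (f1 x + b * f2 x + sig * v x)| ≤ U₁ ^ pm N * (U₁ * (1 - ‖x‖)) := by
      refine (nl_le hN hN5 (hU1' x hx)).trans ?_
      gcongr
      exact hU1 x hx
    have h := abs4 (absmul hα (hvb x hx)) (absmul hβ (hb12 x hx).1) (absmul hγ (hb12 x hx).2) h5
    refine h.trans (le_of_eq ?_)
    rw [hG₁]
    ring
  have hgd : ∀ x ∈ ann N ρ, ∀ y ∈ ann N ρ, ‖x‖ = ‖y‖ → |g x - g y| ≤ K₁ * ‖x - y‖ := by
    intro x hx y hy hxy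
    have h1 := hT1.2.1 x hx y hy hxy
    have h2 := hT2.2.1 x hx y hy hxy
    have h3 := hvd x hx y hy hxy
    have hU : |(f1 x + b * f2 x + sig * v x) - (f1 y + b * f2 y + sig * v y)|
        ≤ U₁ * ‖x - y‖ := by
      have e1 : (f1 x + b * f2 x + sig * v x) - (f1 y + b * f2 y + sig * v y)
        = (f1 x - f1 y) + b * (f2 x - f2 y) + sig * (v x - v y) := by ring
      rw [e1]
      refine (abs3 h1 (absmul hb h2) (absmul hsig h3)).trans (le_of_eq ?_)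
      rw [hU₁]
      ring
    have hnl : |nl N (f1 x + b * f2 x + sig * v x) - nl N (f1 y + b * f2 y + sig * v y)|
        ≤ Cl * (2 * U₁ ^ pm N) * (U₁ * ‖x - y‖) := by
      refine (hlip _ _).trans ?_
      have h4 : |f1 x + b * f2 x + sig * v x| ^ pm N ≤ U₁ ^ pm N :=
        Real.rpow_le_rpow (abs_nonneg _) (hU1' x hx) (by linarith only [hpm])
      have h5 : |f1 y + b * f2 y + sig * v y| ^ pm N ≤ U₁ ^ pm N :=
        Real.rpow_le_rpow (abs_nonneg _) (hU1' y hy) (by linarith only [hpm])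
      have h6 : |f1 x + b * f2 x + sig * v x| ^ pm N + |f1 y + b * f2 y + sig * v y| ^ pm N
        ≤ 2 * U₁ ^ pm N := by linarith only [h4, h5]
      gcongr
    rw [hge x, hge y]
    have e2 : α * v x + β * f1 x + γ * f2 x + nl N (f1 x + b * f2 x + sig * v x)
        - (α * v y + β * f1 y + γ * f2 y + nl N (f1 y + b * f2 y + sig * v y))
        = α * (v x - v y) + β * (f1 x - f1 y) + γ * (f2 x - f2 y)
        + (nl N (f1 x + b * f2 x + sig * v x) - nl N (f1 y + b * f2 y + sig * v y)) := by ring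
    rw [e2]
    refine (abs4 (absmul hα h3) (absmul hβ h1) (absmul hγ h2) hnl).trans (le_of_eq ?_)
    rw [hK₁]
    ring
  -- first application of `tan_weak`
  have hTv : Tan ρ KK v := (tan_weak hN hρ hρ1 hgm hW hv hKK0
    (fun x hx => (hg0 x hx).trans (by rw [hKK]; linarith only [hK₁0]))
    (fun x hx y hy hxy => (hgd x hx y hy hxy).trans
      (mul_le_mul_of_nonneg_right (by rw [hKK]; linarith only [hK₀0]) (norm_nonneg _)))).1
  have hTU : Tan ρ (C₁ + 2 * C₁ + 1 * KK) (fun x => f1 x + b * f2 x + sig * v x) := by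
    refine Tan_mono (Tan_add (Tan_add hT1 (Tan_mul b hT2)) (Tan_mul sig hTv)) ?_
    have h1 : |b| * C₁ ≤ 2 * C₁ := mul_le_mul_of_nonneg_right hb hC₁
    have h2 : |sig| * KK ≤ 1 * KK := mul_le_mul_of_nonneg_right hsig hKK0
    linarith only [h1, h2]
  have hTg : Tan ρ K₂ g := by
    have h1 := Tan_add (Tan_add (Tan_add (Tan_mul α hTv) (Tan_mul β hT1)) (Tan_mul γ hT2))
      (hTnl ρ _ hTU)
    have e1 : (fun x => α * v x + β * f1 x + γ * f2 x + nl N (f1 x + b * f2 x + sig * v x)) = g :=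
      funext fun x => (hge x).symm
    rw [e1] at h1
    refine Tan_mono h1 ?_
    have h2 : |α| * KK ≤ Λ * KK := mul_le_mul_of_nonneg_right hα hKK0
    have h3 : |β| * C₁ ≤ A * C₁ := mul_le_mul_of_nonneg_right hβ hC₁
    have h4 : |γ| * C₁ ≤ 2 * A * C₁ := mul_le_mul_of_nonneg_right hγ hC₁
    rw [hK₂]
    linarith only [h2, h3, h4]
  -- second application
  have hfin := (tan_weak hN hρ hρ1 hgm hW hv hK₂0 hTg.1 hTg.2.1).2 hTg
  refine ⟨fun x hx => (hgb x hx).trans ?_, fun x hx => (hvb x hx).trans ?_,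
    fun R k hR x hx => (hfin R k hR x hx).trans ?_⟩
  · exact mul_le_mul_of_nonneg_right (by linarith only [hK₀0, hK₂0]) (fac1 hG₁0 hx).1
  · exact mul_le_mul_of_nonneg_right (by linarith only [hG₁0, hK₂0]) (fac1 hG₁0 hx).1
  · refine mul_le_mul_of_nonneg_right (mul_le_mul_of_nonneg_right ?_ (sq_nonneg k))
      (fac1 hG₁0 hx).1
    linarith only [hG₁0, hK₀0]

/-- the equation of `om` -/
theorem core1 (hN : 3 ≤ N) (hN5 : N ≤ 5) {A C₁ : ℝ} {ρ : ℝ} {F1 F2 om : LV N} {f1 f2 : E N → ℝ}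
    {lam1 lam2 lam' b sig : ℝ} (hF1 : F1 ∈ DD (ann N ρ)) (hF2 : F2 ∈ DD (ann N ρ))
    (hf1 : fn F1 =ᵐ[volume] (ann N ρ).indicator f1)
    (hf2 : fn F2 =ᵐ[volume] (ann N ρ).indicator f2)
    (hW1 : Weak (ann N ρ) F1 (fun x => lam1 * f1 x))
    (hW2 : Weak (ann N ρ) F2 (fun x => lam2 * f2 x))
    (hc1 : ContinuousOn f1 (ann N ρ)) (hc2 : ContinuousOn f2 (ann N ρ))
    (hb1 : ∀ x ∈ ann N ρ, |f1 x| ≤ C₁) (hb2 : ∀ x ∈ ann N ρ, |f2 x| ≤ C₁)
    (hsig : 0 < sig)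
    (hbdd : ∀ᵐ x, |fn (F1 + b • F2 + om) x| ≤ A)
    (hWU : Weak (ann N ρ) (F1 + b • F2 + om) (fun x =>
        lam' * fn (F1 + b • F2 + om) x + sig * nl N (fn (F1 + b • F2 + om) x))) :
    om ∈ DD (ann N ρ) ∧
    (∀ᵐ x, x ∈ ann N ρ → fn (F1 + b • F2 + om) x = f1 x + b * f2 x + fn om x) ∧
    Weak (ann N ρ) om (fun x => lam' * fn om x + ((lam' - lam1) * f1 x
      + b * (lam' - lam2) * f2 x + sig * nl N (fn (F1 + b • F2 + om) x))) := by
  have hpm := pw_pm_ge hN hN5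
  have hΩm : MeasurableSet (ann N ρ) := (ann_open ρ).measurableSet
  have hF1U : F1 ∈ DD univ := DD_mono (subset_univ _) hF1
  have hF2U : F2 ∈ DD univ := DD_mono (subset_univ _) hF2
  have homΩ : om ∈ DD (ann N ρ) := by
    have h1 : om = (F1 + b • F2 + om) - (F1 + b • F2) := by abel
    rw [h1]
    exact Submodule.sub_mem _ hWU.1 (Submodule.add_mem _ hF1 (Submodule.smul_mem _ _ hF2))
  have homU : om ∈ DD univ := DD_mono (subset_univ _) homΩ
  have hfnU : ∀ᵐ x, x ∈ ann N ρ → fn (F1 + b • F2 + om) x = f1 x + b * f2 x + fn om x := by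
    filter_upwards [fn_add hN (Submodule.add_mem _ hF1U (Submodule.smul_mem _ b hF2U)) homU,
      fn_add hN hF1U (Submodule.smul_mem _ b hF2U), fn_smul hN b hF2U, hf1, hf2]
      with x h1 h2 h3 h4 h5 hx
    rw [h1, h2, h3, h4, h5, indicator_of_mem hx, indicator_of_mem hx]
  refine ⟨homΩ, hfnU, ?_⟩
  have hm1 : AEStronglyMeasurable f1 (volume.restrict (ann N ρ)) := hc1.aestronglyMeasurable hΩm
  have hm2 : AEStronglyMeasurable f2 (volume.restrict (ann N ρ)) := hc2.aestronglyMeasurable hΩm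
  have hmU : AEStronglyMeasurable (fn (F1 + b • F2 + om)) (volume.restrict (ann N ρ)) :=
    (fn_meas _).restrict
  have hnlU : AEStronglyMeasurable (fun x => nl N (fn (F1 + b • F2 + om) x))
      (volume.restrict (ann N ρ)) := (nl_cont hN hN5).comp_aestronglyMeasurable hmU
  have i1 : ∀ φ : E N → ℝ, IsTest (ann N ρ) φ → Integrable (fun x => lam1 * f1 x * φ x)
      volume := by
    intro φ hφ
    have := (int_test hΩm hm1 (ae_of_all _ hb1) hφ).const_mul lam1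
    refine this.congr (Eventually.of_forall fun x => ?_)
    simp only; ring
  have i2 : ∀ φ : E N → ℝ, IsTest (ann N ρ) φ → Integrable (fun x => lam2 * f2 x * φ x)
      volume := by
    intro φ hφ
    have := (int_test hΩm hm2 (ae_of_all _ hb2) hφ).const_mul lam2
    refine this.congr (Eventually.of_forall fun x => ?_)
    simp only; ring
  have i3 : ∀ φ : E N → ℝ, IsTest (ann N ρ) φ → Integrable (fun x =>
      (lam' * fn (F1 + b • F2 + om) x + sig * nl N (fn (F1 + b • F2 + om) x)) * φ x) volume := by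
    intro φ hφ
    refine int_test (K := |lam'| * A + |sig| * (A ^ pm N * A)) hΩm
      ((hmU.const_mul _).add (hnlU.const_mul _)) ?_ hφ
    filter_upwards [hbdd] with x hx _
    have hA : 0 ≤ A := (abs_nonneg _).trans hx
    refine (abs_add_le _ _).trans (add_le_add (absmul le_rfl hx) (absmul le_rfl ?_))
    refine (nl_le hN hN5 hx).trans ?_
    gcongr
  have h1 := weak_lin hWU hW1 i3 i1 1 (-1)
  have i4 : ∀ φ : E N → ℝ, IsTest (ann N ρ) φ → Integrable (fun x =>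
      (1 * (lam' * fn (F1 + b • F2 + om) x + sig * nl N (fn (F1 + b • F2 + om) x))
        + -1 * (lam1 * f1 x)) * φ x) volume := by
    intro φ hφ
    refine (((i3 φ hφ).const_mul 1).add ((i1 φ hφ).const_mul (-1))).congr
      (Eventually.of_forall fun x => ?_)
    simp only [Pi.add_apply]; ring
  have h2 := weak_lin h1 hW2 i4 i2 1 (-b)
  have e1 : (1 : ℝ) • ((1 : ℝ) • (F1 + b • F2 + om) + (-1 : ℝ) • F1) + (-b) • F2 = om := by
    rw [one_smul, one_smul, neg_smul, neg_smul, one_smul]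
    abel
  rw [e1] at h2
  refine weak_congr_on h2 ?_
  filter_upwards [hfnU] with x hx hxΩ
  rw [hx hxΩ]
  ring

/-- the sup bound -/
theorem core2 (hN : 3 ≤ N) (hN5 : N ≤ 5) (A Λ H : ℝ) (hA : 0 ≤ A) (hΛ : 0 ≤ Λ) (hH : 0 ≤ H) :
    ∃ C₂ : ℝ, 0 ≤ C₂ ∧ ∀ (ρ : ℝ) (om : LV N) (h : E N → ℝ) (lam' sig : ℝ), om ∈ DD (ann N ρ) →
      AEStronglyMeasurable h (volume.restrict (ann N ρ)) → 0 ≤ sig →
      (∀ᵐ x, x ∈ ann N ρ → |h x| ≤ H * sig) → |lam'| ≤ Λ → ‖om‖ ≤ A * sig →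
      Weak (ann N ρ) om (fun x => lam' * fn om x + h x) → ∀ᵐ x, |fn om x| ≤ C₂ * sig := by
  obtain ⟨Cs, hCs, hsup⟩ := exists_sup hN hN5 1
  obtain ⟨S₃, hS₃, hsob⟩ := exists_sob_q (N := N) hN 1 (q := 3) (by norm_num) (ts_ge3 hN hN5)
  obtain ⟨V, hV⟩ : ∃ V : ℝ, V = ((volume (ball (0 : E N) 1)) ^ ((3 : ℝ)⁻¹)).toReal := ⟨_, rfl⟩
  have hV0 : 0 ≤ V := by rw [hV]; exact ENNReal.toReal_nonneg
  refine ⟨Cs * (Λ * (S₃ * A) + V * H), by positivity, ?_⟩
  intro ρ om h lam' sig hom hm hsig hh hlam hn hW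
  have hΩb : ann N ρ ⊆ ball 0 1 := fun x hx => by simpa using hx.2
  have hH1 := nq_bdd (ann_open ρ).measurableSet hΩb (by positivity) hm hh
  rw [← hV] at hH1
  have hsob1 := hsob om (DD_mono hΩb hom)
  have hM1 : Mq 3 (ann N ρ) (fn om) :=
    hsob1.1.mono_measure (Measure.restrict_mono (subset_univ _) le_rfl)
  have hn1' : nq 3 (ann N ρ) (fn om) ≤ S₃ * (A * sig) := by
    have h1 : nq 3 (ann N ρ) (fn om) ≤ nq 3 univ (fn om) := by
      unfold nq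
      exact ENNReal.toReal_mono hsob1.1.2.ne
        (eLpNorm_mono_measure _ (Measure.restrict_mono (subset_univ _) le_rfl))
    have h3 : S₃ * ‖om‖ ≤ S₃ * (A * sig) := by gcongr
    exact h1.trans (hsob1.2.trans h3)
  have hM2 : Mq 3 (ann N ρ) (fun x => lam' * fn om x + h x) := (hM1.const_mul lam').add hH1.1
  filter_upwards [hsup (ann N ρ) (ann_open ρ) hΩb om _ hM2 hW] with x hx
  refine hx.trans ?_
  have h1 := nq_add_le (q := 3) (by norm_num) (hM1.const_mul lam') hH1.1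
  have h2 : nq 3 (ann N ρ) (fun x => lam' * fn om x) ≤ Λ * (S₃ * (A * sig)) := by
    rw [nq_const_mul]
    exact mul_le_mul hlam hn1' ENNReal.toReal_nonneg hΛ
  have h3 : nq 3 (ann N ρ) (fun x => lam' * fn om x + h x)
      ≤ Λ * (S₃ * (A * sig)) + V * (H * sig) := h1.trans (add_le_add h2 hH1.2)
  calc Cs * nq 3 (ann N ρ) (fun x => lam' * fn om x + h x)
      ≤ Cs * (Λ * (S₃ * (A * sig)) + V * (H * sig)) := by gcongr
    _ = _ := by ring

/-- the core of `om_tan`, for one annulus -/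
theorem om_core (hN : 3 ≤ N) (hN5 : N ≤ 5) (A C₁ Λ : ℝ) (hA : 0 ≤ A) (hC₁ : 0 ≤ C₁)
    (hΛ : 0 ≤ Λ) :
    ∃ B : ℝ, 0 < B ∧ ∀ (ρ : ℝ) (F1 F2 om : LV N) (f1 f2 : E N → ℝ) (lam1 lam2 lam' b sig : ℝ),
      0 < ρ → ρ < 1 → F1 ∈ DD (ann N ρ) → F2 ∈ DD (ann N ρ) →
      fn F1 =ᵐ[volume] (ann N ρ).indicator f1 → fn F2 =ᵐ[volume] (ann N ρ).indicator f2 →
      Weak (ann N ρ) F1 (fun x => lam1 * f1 x) → Weak (ann N ρ) F2 (fun x => lam2 * f2 x) →
      ContinuousOn f1 (ann N ρ) → ContinuousOn f2 (ann N ρ) →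
      (∀ x ∈ ann N ρ, |f1 x| ≤ C₁ * (1 - ‖x‖) ∧ |f2 x| ≤ C₁ * (1 - ‖x‖)) →
      Tan ρ C₁ f1 → Tan ρ C₁ f2 → |lam'| ≤ Λ → |b| ≤ 2 → 0 < sig → sig ≤ 1 →
      ‖om‖ ≤ A * sig → |lam' - lam1| ≤ A * sig → |lam' - lam2| ≤ A * sig →
      (∀ᵐ x, |fn (F1 + b • F2 + om) x| ≤ A) →
      Weak (ann N ρ) (F1 + b • F2 + om) (fun x =>
        lam' * fn (F1 + b • F2 + om) x + sig * nl N (fn (F1 + b • F2 + om) x)) →
      ∃ (v g : E N → ℝ), IsRep (ann N ρ) om v ∧ Weak (ann N ρ) om g ∧ ContinuousOn g (ann N ρ) ∧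
        (∀ x ∈ ann N ρ, |g x| ≤ B * sig * (1 - ‖x‖)) ∧
        (∀ x ∈ ann N ρ, |v x| ≤ B * sig * (1 - ‖x‖)) ∧
        (∀ (R : E N ≃ₗᵢ[ℝ] E N) (k : ℝ), (∀ x, ‖R x - x‖ ≤ k * ‖x‖) → ∀ x ∈ ann N ρ,
          |v (R x) + v (R.symm x) - 2 * v x| ≤ B * sig * k ^ 2 * (1 - ‖x‖)) := by
  have hpm := pw_pm_ge hN hN5
  obtain ⟨H, hH⟩ : ∃ H : ℝ, H = A * C₁ + 2 * A * C₁ + A ^ pm N * A := ⟨_, rfl⟩
  have hH0 : 0 ≤ H := by rw [hH]; positivity
  obtain ⟨C₂, hC₂, hcore2⟩ := core2 (N := N) hN hN5 A Λ H hA hΛ hH0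
  obtain ⟨B, hB, hcore3⟩ := core3 hN hN5 A C₁ C₂ Λ hA hC₁ hC₂ hΛ
  refine ⟨B, hB, ?_⟩
  intro ρ F1 F2 om f1 f2 lam1 lam2 lam' b sig hρ hρ1 hF1 hF2 hf1 hf2 hW1 hW2 hc1 hc2 hb12 hT1 hT2
    hlam' hb hsig hsig1 hom hn1 hn2 hbdd hWU
  have hΩm : MeasurableSet (ann N ρ) := (ann_open ρ).measurableSet
  obtain ⟨homΩ, hfnU, hWom0⟩ := core1 hN hN5 hF1 hF2 hf1 hf2 hW1 hW2 hc1 hc2 hT1.1 hT2.1 hsig
    hbdd hWU
  have homU : om ∈ DD univ := DD_mono (subset_univ _) homΩ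
  have hm1 : AEStronglyMeasurable f1 (volume.restrict (ann N ρ)) := hc1.aestronglyMeasurable hΩm
  have hm2 : AEStronglyMeasurable f2 (volume.restrict (ann N ρ)) := hc2.aestronglyMeasurable hΩm
  have hmo : AEStronglyMeasurable (fn om) (volume.restrict (ann N ρ)) := (fn_meas om).restrict
  have hnlU : AEStronglyMeasurable (fun x => nl N (fn (F1 + b • F2 + om) x))
      (volume.restrict (ann N ρ)) :=
    (nl_cont hN hN5).comp_aestronglyMeasurable (fn_meas _).restrict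
  have hhm : AEStronglyMeasurable (fun x => (lam' - lam1) * f1 x
      + b * (lam' - lam2) * f2 x + sig * nl N (fn (F1 + b • F2 + om) x))
      (volume.restrict (ann N ρ)) :=
    ((hm1.const_mul _).add (hm2.const_mul _)).add (hnlU.const_mul _)
  have hhb : ∀ᵐ x, x ∈ ann N ρ → |(lam' - lam1) * f1 x
      + b * (lam' - lam2) * f2 x + sig * nl N (fn (F1 + b • F2 + om) x)| ≤ H * sig := by
    filter_upwards [hbdd] with x hx hxΩ
    have h3 : |nl N (fn (F1 + b • F2 + om) x)| ≤ A ^ pm N * A := by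
      refine (nl_le hN hN5 hx).trans ?_
      gcongr
    have hs : |sig| ≤ sig := (abs_of_pos hsig).le
    refine (abs3 (absmul hn1 (hT1.1 x hxΩ)) (absmul (absmul hb hn2) (hT2.1 x hxΩ))
      (absmul hs h3)).trans (le_of_eq ?_)
    rw [hH]
    ring
  have hsupom := hcore2 ρ om _ lam' sig homΩ hhm hsig.le hhb hlam' hom hWom0
  -- the representative
  obtain ⟨v, hv, -, -⟩ := rep_exists hN hρ hρ1 ((hmo.const_mul lam').add hhm) hWom0
    (K := Λ * (C₂ * sig) + H * sig) (by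
      filter_upwards [hsupom, hhb] with x h1 h2 hx
      exact (abs_add_le _ _).trans (add_le_add (absmul hlam' h1) (h2 hx)))
  have hvb : ∀ x ∈ ann N ρ, |v x| ≤ C₂ * sig := by
    refine ae_le_cont (ann_open ρ) hv.1.abs continuousOn_const ?_
    filter_upwards [hsupom, hv.2.2] with x h1 h2 _
    rw [← h2]
    exact h1
  -- the right-hand side
  obtain ⟨g, hg⟩ : ∃ g : E N → ℝ, g = fun x => lam' * v x + (lam' - lam1) * f1 x
    + b * (lam' - lam2) * f2 x + sig * nl N (f1 x + b * f2 x + v x) := ⟨_, rfl⟩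
  have hgc : ContinuousOn g (ann N ρ) := by
    rw [hg]
    refine ContinuousOn.add (ContinuousOn.add (ContinuousOn.add ?_ ?_) ?_) ?_
    · exact hv.1.const_smul lam'
    · exact hc1.const_smul (lam' - lam1)
    · exact hc2.const_smul (b * (lam' - lam2))
    · exact ((nl_cont hN hN5).comp_continuousOn ((hc1.add (hc2.const_smul b)).add hv.1)).const_smul
        sig
  have hWg : Weak (ann N ρ) om g := by
    refine weak_congr_on hWom0 ?_
    filter_upwards [hfnU, hv.2.2] with x h1 h2 hx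
    rw [hg]
    simp only
    rw [h1 hx, h2]
    ring
  -- rescaled
  have hvs : ∀ x, v x = sig * (sig⁻¹ * v x) := fun x => by field_simp
  have hgs : ∀ x, g x = sig * (sig⁻¹ * g x) := fun x => by field_simp
  have hvr : IsRep (ann N ρ) (sig⁻¹ • om) (fun x => sig⁻¹ * v x) := by
    refine ⟨hv.1.const_smul sig⁻¹, fun x hx => ?_, ?_⟩
    · simp only
      rw [hv.2.1 x hx, mul_zero]
    · filter_upwards [fn_smul hN sig⁻¹ homU, hv.2.2] with x h1 h2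
      rw [h1, h2]
  have hWg' : Weak (ann N ρ) (sig⁻¹ • om) (fun x => sig⁻¹ * g x) := by
    refine ⟨Submodule.smul_mem _ _ homΩ, fun φ W hφ hW => ?_⟩
    rw [real_inner_smul_left, hWg.2 φ W hφ hW, ← integral_const_mul]
    refine integral_congr_ae (Eventually.of_forall fun x => ?_)
    simp only
    ring
  have hsa : |sig| ≤ 1 := by rw [abs_of_pos hsig]; exact hsig1
  have hcoef : |sig⁻¹ * (lam' - lam1)| ≤ A ∧ |sig⁻¹ * (b * (lam' - lam2))| ≤ 2 * A := by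
    rw [abs_mul, abs_mul, abs_of_pos (inv_pos.2 hsig)]
    constructor
    · rw [inv_mul_le_iff₀ hsig]
      linarith only [hn1]
    · rw [inv_mul_le_iff₀ hsig]
      refine (absmul hb hn2).trans (le_of_eq (by ring))
  have hge : ∀ x, sig⁻¹ * g x = lam' * (sig⁻¹ * v x) + (sig⁻¹ * (lam' - lam1)) * f1 x
      + (sig⁻¹ * (b * (lam' - lam2))) * f2 x + nl N (f1 x + b * f2 x + sig * (sig⁻¹ * v x)) := by
    intro x
    rw [← hvs, hg]
    field_simp
  obtain ⟨r1, r2, r3⟩ := hcore3 ρ (sig⁻¹ • om) f1 f2 (fun x => sig⁻¹ * v x) (fun x => sig⁻¹ * g x)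
    lam' (sig⁻¹ * (lam' - lam1)) (sig⁻¹ * (b * (lam' - lam2))) b sig hρ hρ1 hvr hWg'
    (hgc.const_smul sig⁻¹) hge hlam' hcoef.1 hcoef.2 hb hsa hb12 hT1 hT2 (fun x hx => by
      rw [abs_mul, abs_of_pos (inv_pos.2 hsig), inv_mul_le_iff₀ hsig]
      linarith only [hvb x hx])
  refine ⟨v, g, hv, hWg, hgc, fun x hx => ?_, fun x hx => ?_, fun R k hR x hx => ?_⟩
  · rw [hgs, abs_mul, abs_of_pos hsig]
    calc sig * |sig⁻¹ * g x| ≤ sig * (B * (1 - ‖x‖)) := by gcongr; exact r1 x hx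
      _ = _ := by ring
  · rw [hvs, abs_mul, abs_of_pos hsig]
    calc sig * |sig⁻¹ * v x| ≤ sig * (B * (1 - ‖x‖)) := by gcongr; exact r2 x hx
      _ = _ := by ring
  · have e1 : v (R x) + v (R.symm x) - 2 * v x
        = sig * (sig⁻¹ * v (R x) + sig⁻¹ * v (R.symm x) - 2 * (sig⁻¹ * v x)) := by
      field_simp
    rw [e1, abs_mul, abs_of_pos hsig]
    calc sig * |sig⁻¹ * v (R x) + sig⁻¹ * v (R.symm x) - 2 * (sig⁻¹ * v x)|
        ≤ sig * (B * k ^ 2 * (1 - ‖x‖)) := by gcongr; exact r3 R k hR x hx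
      _ = _ := by ring

end TR

end Pool.Agent.helper13.BN
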